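import Pool.Agent.Lib_helper88.Chrom.Quot

/-!
# The graph of a piece: components

`pieceG G D C` is `G[C ∪ D] / D` on `Option C`.
* `kk_piece_out`: for `S ∌ none` (and `V \ C` connected) `k(piece - S) = k(G - S)`;
* `kk_piece_in`: for `S ∋ none`, `k(G - (D ∪ S)) + 1 = k(G - D) + k(piece - S)`.
-/

open Finset

namespace Pool.Agent.Chrom

variable {V : Type*} [Fintype V] [DecidableEq V]

set_option linter.unusedSectionVars false

/-- the graph `G[C ∪ D] / D` on `Option C` -/
def pieceG (G : SimpleGraph V) (D C : Finset V) : SimpleGraph (Option {v // v ∈ C}) where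
  Adj p q := match p, q with
    | some u, some v => G.Adj u v
    | none, some v => ∃ d ∈ D, G.Adj d v
    | some u, none => ∃ d ∈ D, G.Adj d u
    | none, none => False
  symm := ⟨by
    rintro (_ | u) (_ | v) h
    · exact h
    · exact h
    · exact h
    · exact SimpleGraph.Adj.symm (G := G) h⟩
  loopless := ⟨by
    rintro (_ | u) h
    · exact h
    · exact G.loopless.irrefl _ h⟩

@[simp] lemma pieceG_some_some {G : SimpleGraph V} {D C : Finset V} {u v : {v // v ∈ C}} :
    (pieceG G D C).Adj (some u) (some v) ↔ G.Adj u v := Iff.rfl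

@[simp] lemma pieceG_none_some {G : SimpleGraph V} {D C : Finset V} {v : {v // v ∈ C}} :
    (pieceG G D C).Adj none (some v) ↔ ∃ d ∈ D, G.Adj d v := Iff.rfl

@[simp] lemma pieceG_some_none {G : SimpleGraph V} {D C : Finset V} {v : {v // v ∈ C}} :
    (pieceG G D C).Adj (some v) none ↔ ∃ d ∈ D, G.Adj d v := Iff.rfl

@[simp] lemma pieceG_none_none {G : SimpleGraph V} {D C : Finset V} :
    ¬ (pieceG G D C).Adj none none := id

/-- the projection `V → Option C` -/
def pproj (C : Finset V) (v : V) : Option {v // v ∈ C} := if h : v ∈ C then some ⟨v, h⟩ else none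

lemma pproj_mem {C : Finset V} {v : V} (h : v ∈ C) : pproj C v = some ⟨v, h⟩ := by simp [pproj, h]

lemma pproj_not_mem {C : Finset V} {v : V} (h : v ∉ C) : pproj C v = none := by simp [pproj, h]

lemma pproj_coe {C : Finset V} (v : {v // v ∈ C}) : pproj C v = some v := by simp [pproj, v.2]

lemma pproj_surjective {C : Finset V} {d : V} (hd : d ∉ C) : Function.Surjective (pproj C) := by
  rintro (_ | v)
  · exact ⟨d, pproj_not_mem hd⟩
  · exact ⟨v, pproj_coe v⟩

lemma reachable_del_mono {G : SimpleGraph V} {S T : Finset V} (h : S ⊆ T) {u v : V}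
    (hr : (del G T).Reachable u v) : (del G S).Reachable u v := by
  have hle : del G T ≤ del G S := fun _ _ hadj => by
    rw [del_adj] at hadj ⊢
    exact ⟨hadj.1, fun hh => hadj.2.1 (h hh), fun hh => hadj.2.2 (h hh)⟩
  exact hr.mono hle

variable {G : SimpleGraph V} {D C : Finset V} {S : Finset (Option {v // v ∈ C})}

lemma mem_some'_iff_pproj (hn : none ∉ S) {v : V} : v ∈ some' S ↔ pproj C v ∈ S := by
  rw [mem_some']
  by_cases h : v ∈ C
  · rw [pproj_mem h]
    exact ⟨fun hh => hh.2, fun hh => ⟨h, hh⟩⟩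
  · rw [pproj_not_mem h]
    exact ⟨fun hh => absurd hh.1 h, fun hh => absurd hh hn⟩

lemma some'_subset : some' S ⊆ C := fun _ hv => (mem_some'.1 hv).1

lemma card_some' (hn : none ∉ S) : (some' S).card = S.card := by
  rw [some', card_map]
  refine Finset.card_bij (fun v _ => some v) ?_ ?_ ?_
  · intro v hv; exact (mem_filter.1 hv).2
  · intro u _ v _ h; exact Option.some_injective _ h
  · rintro (_ | v) hv
    · exact absurd hv hn
    · exact ⟨v, by simp [hv], rfl⟩

lemma card_some'_none (hn : none ∈ S) : (some' S).card + 1 = S.card := by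
  have h1 : some' S = some' (S.erase none) := by
    ext v; simp [mem_some']
  rw [h1, card_some' (by simp), card_erase_of_mem hn]
  have := Finset.card_pos.2 ⟨_, hn⟩
  omega

lemma unpiece_out (hn : none ∉ S) : unpiece D C S = some' S := by rw [unpiece, if_neg hn]

lemma unpiece_in (hn : none ∈ S) : unpiece D C S = D ∪ some' S := by rw [unpiece, if_pos hn]

/-- removing vertices of the piece other than the contracted one -/
theorem kk_piece_out (hC : C ∈ comps G D) (hD : D.Nonempty) (hn : none ∉ S)
    (hconn : ∀ u v, u ∉ C → v ∉ C → (del G C).Reachable u v) :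
    kk (pieceG G D C) S = kk G (some' S) := by
  obtain ⟨d, hd⟩ := hD
  have hdC : d ∉ C := fun h => Finset.disjoint_left.1 (comps_disjoint_S hC) h hd
  have hadj : ∀ u v, u ∈ C → v ∉ C → G.Adj u v → v ∈ D := by
    intro u v hu hv huv
    by_contra hvD
    exact hv (comps_closed hC hu huv hvD)
  refine (kk_map (pproj_surjective hdC) (fun v => mem_some'_iff_pproj hn) ?_ ?_ ?_).symm
  · rintro u v ⟨huv, hu, hv⟩
    rw [mem_some'_iff_pproj hn] at hu hv
    by_cases hu' : u ∈ C <;> by_cases hv' : v ∈ C
    · rw [pproj_mem hu'] at hu ⊢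
      rw [pproj_mem hv'] at hv ⊢
      exact SimpleGraph.Adj.reachable ⟨huv, hu, hv⟩
    · rw [pproj_mem hu'] at hu ⊢
      rw [pproj_not_mem hv'] at hv ⊢
      exact SimpleGraph.Adj.reachable ⟨⟨v, hadj u v hu' hv' huv, huv.symm⟩, hu, hv⟩
    · rw [pproj_not_mem hu'] at hu ⊢
      rw [pproj_mem hv'] at hv ⊢
      exact SimpleGraph.Adj.reachable ⟨⟨u, hadj v u hv' hu' huv.symm, huv⟩, hu, hv⟩
    · rw [pproj_not_mem hu', pproj_not_mem hv']
  · intro u v hv huv
    by_cases hu' : u ∈ C <;> by_cases hv' : v ∈ C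
    · rw [pproj_mem hu', pproj_mem hv'] at huv
      have := Option.some_injective _ huv
      have h2 : u = v := congrArg Subtype.val this
      rw [h2]
    · rw [pproj_mem hu', pproj_not_mem hv'] at huv; exact absurd huv (by simp)
    · rw [pproj_not_mem hu', pproj_mem hv'] at huv; exact absurd huv (by simp)
    · exact reachable_del_mono some'_subset (hconn u v hu' hv')
  · rintro (_ | x) (_ | y) ⟨hxy, hx, hy⟩
    · exact absurd hxy id
    · obtain ⟨d', hd', hdy⟩ := hxy
      have hd'C : d' ∉ C := fun h => Finset.disjoint_left.1 (comps_disjoint_S hC) h hd'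
      refine ⟨d', y, pproj_not_mem hd'C, pproj_coe y, SimpleGraph.Adj.reachable ⟨hdy, ?_, ?_⟩⟩
      · rw [mem_some'_iff_pproj hn, pproj_not_mem hd'C]; exact hn
      · rw [mem_some'_iff_pproj hn, pproj_coe]; exact hy
    · obtain ⟨d', hd', hdy⟩ := hxy
      have hd'C : d' ∉ C := fun h => Finset.disjoint_left.1 (comps_disjoint_S hC) h hd'
      refine ⟨x, d', pproj_coe x, pproj_not_mem hd'C, SimpleGraph.Adj.reachable ⟨hdy.symm, ?_, ?_⟩⟩
      · rw [mem_some'_iff_pproj hn, pproj_coe]; exact hx
      · rw [mem_some'_iff_pproj hn, pproj_not_mem hd'C]; exact hn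
    · refine ⟨x, y, pproj_coe x, pproj_coe y, SimpleGraph.Adj.reachable ⟨hxy, ?_, ?_⟩⟩
      · rw [mem_some'_iff_pproj hn, pproj_coe]; exact hx
      · rw [mem_some'_iff_pproj hn, pproj_coe]; exact hy

lemma not_mem_union (hC : C ∈ comps G D) {v : {v // v ∈ C}} :
    (v : V) ∉ D ∪ some' S ↔ some v ∉ S := by
  rw [mem_union, mem_some']
  have : (v : V) ∉ D := Finset.disjoint_left.1 (comps_disjoint_S hC) v.2
  constructor
  · intro h h'; exact h (Or.inr ⟨v.2, h'⟩)
  · rintro h (h' | ⟨_, h'⟩)
    · exact this h'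
    · exact h h'

lemma reachable_piece_iff (hC : C ∈ comps G D) (hn : none ∈ S) {v : {v // v ∈ C}} {w : V} :
    (del G (D ∪ some' S)).Reachable v w ↔
      ∃ h : w ∈ C, (del (pieceG G D C) S).Reachable (some v) (some ⟨w, h⟩) := by
  constructor
  · rintro ⟨p⟩
    have key : ∀ x y (_ : (del G (D ∪ some' S)).Walk x y) (hx : x ∈ C),
        ∃ h : y ∈ C, (del (pieceG G D C) S).Reachable (some ⟨x, hx⟩) (some ⟨y, h⟩) := by
      intro x y p
      induction p with
      | nil => intro hx; exact ⟨hx, SimpleGraph.Reachable.refl _⟩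
      | @cons x z y h p ih =>
        intro hx
        have hz : z ∈ C := comps_closed hC hx h.1 (fun hh => h.2.2 (mem_union_left _ hh))
        obtain ⟨hy, hr⟩ := ih hz
        have h0 : (del (pieceG G D C) S).Adj (some ⟨x, hx⟩) (some ⟨z, hz⟩) :=
          ⟨h.1, (not_mem_union hC (v := ⟨x, hx⟩)).1 h.2.1, (not_mem_union hC (v := ⟨z, hz⟩)).1 h.2.2⟩
        exact ⟨hy, SimpleGraph.Reachable.trans h0.reachable hr⟩
    exact key _ _ p v.2
  · rintro ⟨hw, ⟨p⟩⟩
    have key : ∀ x y (_ : (del (pieceG G D C) S).Walk x y) (v : {v // v ∈ C}), x = some v →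
        ∀ w : {v // v ∈ C}, y = some w → (del G (D ∪ some' S)).Reachable v w := by
      intro x y p
      induction p with
      | nil =>
        rintro v rfl w h
        rw [Option.some_injective _ h]
      | @cons x z y h p ih =>
        rintro v rfl w rfl
        cases z with
        | none => exact absurd hn h.2.2
        | some z =>
          refine SimpleGraph.Reachable.trans (SimpleGraph.Adj.reachable ⟨h.1, ?_, ?_⟩)
            (ih z rfl w rfl)
          · exact (not_mem_union hC).2 h.2.1
          · exact (not_mem_union hC).2 h.2.2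
    exact key _ _ p v rfl ⟨w, hw⟩ rfl

lemma comp_piece_in (hC : C ∈ comps G D) (hn : none ∈ S) (v : {v // v ∈ C}) :
    comp G (D ∪ some' S) v = some' (comp (pieceG G D C) S (some v)) := by
  ext w
  rw [mem_comp, reachable_piece_iff hC hn, mem_some']
  simp only [mem_comp]

lemma comp_other (hC : C ∈ comps G D) {v : V} (hv : v ∉ C) :
    comp G (D ∪ some' S) v = comp G D v := by
  ext w
  rw [mem_comp, mem_comp]
  constructor
  · exact reachable_del_mono subset_union_left
  · rintro ⟨p⟩
    have key : ∀ x y (_ : (del G D).Walk x y), x ∉ C → (del G (D ∪ some' S)).Reachable x y := by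
      intro x y p
      induction p with
      | nil => intro _; exact SimpleGraph.Reachable.refl _
      | @cons x z y h p ih =>
        intro hx
        have hz : z ∉ C := fun hz => hx (comps_closed hC hz h.1.symm h.2.1)
        refine SimpleGraph.Reachable.trans (SimpleGraph.Adj.reachable ⟨h.1, ?_, ?_⟩) (ih hz)
        · rw [mem_union, not_or]; exact ⟨h.2.1, fun hh => hx (some'_subset hh)⟩
        · rw [mem_union, not_or]; exact ⟨h.2.2, fun hh => hz (some'_subset hh)⟩
    exact key _ _ p hv

lemma comps_union (hC : C ∈ comps G D) (hn : none ∈ S) :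
    comps G (D ∪ some' S) = (comps G D).erase C ∪ (comps (pieceG G D C) S).image some' := by
  ext K
  rw [mem_union, mem_erase, mem_image, mem_comps]
  constructor
  · rintro ⟨v, hv, rfl⟩
    by_cases hvC : v ∈ C
    · right
      refine ⟨comp (pieceG G D C) S (some ⟨v, hvC⟩), comp_mem_comps ?_,
        (comp_piece_in hC hn ⟨v, hvC⟩).symm⟩
      exact (not_mem_union hC (v := ⟨v, hvC⟩)).1 hv
    · left
      rw [comp_other hC hvC]
      refine ⟨fun h => hvC ?_, comp_mem_comps fun h => hv (mem_union_left _ h)⟩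
      rw [← h]; exact self_mem_comp v
  · rintro (⟨hne, hK⟩ | ⟨K', hK', rfl⟩)
    · obtain ⟨v, hv, rfl⟩ := mem_comps.1 hK
      have hvC : v ∉ C := fun h => hne (comp_eq_of_mem_comps hC h)
      refine ⟨v, ?_, comp_other hC hvC⟩
      rw [mem_union, not_or]
      exact ⟨hv, fun hh => hvC (some'_subset hh)⟩
    · obtain ⟨p, hp, rfl⟩ := mem_comps.1 hK'
      cases p with
      | none => exact absurd hn hp
      | some v => exact ⟨v, (not_mem_union hC).2 hp, comp_piece_in hC hn v⟩

lemma some'_injOn {P Q : Finset (Option {v // v ∈ C})} (hP : none ∉ P) (hQ : none ∉ Q)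
    (h : some' P = some' Q) : P = Q := by
  ext p
  cases p with
  | none => exact ⟨fun h => absurd h hP, fun h => absurd h hQ⟩
  | some v =>
    have h1 : (v : V) ∈ some' P ↔ (v : V) ∈ some' Q := by rw [h]
    rw [mem_some', mem_some'] at h1
    constructor
    · intro hv
      obtain ⟨_, h2⟩ := h1.1 ⟨v.2, hv⟩
      exact h2
    · intro hv
      obtain ⟨_, h2⟩ := h1.2 ⟨v.2, hv⟩
      exact h2

/-- removing vertices of the piece including the contracted one -/
theorem kk_piece_in (hC : C ∈ comps G D) (hn : none ∈ S) :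
    kk G (D ∪ some' S) + 1 = kk G D + kk (pieceG G D C) S := by
  unfold kk
  rw [comps_union hC hn, card_union_of_disjoint, card_erase_of_mem hC, card_image_of_injOn]
  · have := Finset.card_pos.2 ⟨_, hC⟩
    omega
  · intro P hP Q hQ h
    refine some'_injOn ?_ ?_ h
    · intro hh
      exact Finset.disjoint_left.1 (comps_disjoint_S hP) hh hn
    · intro hh
      exact Finset.disjoint_left.1 (comps_disjoint_S hQ) hh hn
  · rw [Finset.disjoint_left]
    intro K hK hK'
    obtain ⟨P, hP, rfl⟩ := mem_image.1 hK'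
    rw [mem_erase] at hK
    obtain ⟨p, hp⟩ := comps_nonempty hP
    cases p with
    | none => exact Finset.disjoint_left.1 (comps_disjoint_S hP) hp hn
    | some v =>
      have h1 : (v : V) ∈ some' P := mem_some'.2 ⟨v.2, hp⟩
      exact Finset.disjoint_left.1 (comps_disjoint hK.2 hC hK.1) h1 v.2

theorem cc_piece_out (hC : C ∈ comps G D) (hD : D.Nonempty) (hn : none ∉ S)
    (hconn : ∀ u v, u ∉ C → v ∉ C → (del G C).Reachable u v) :
    cc (pieceG G D C) S = cc G (unpiece D C S) := by
  rw [unpiece_out hn, cc, cc, kk_piece_out hC hD hn hconn, card_some' hn]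

theorem cc_piece_in (hC : C ∈ comps G D) (hn : none ∈ S) :
    cc (pieceG G D C) S = cc G (unpiece D C S) - cc G D := by
  have h1 := kk_piece_in hC hn
  have h2 := card_some'_none hn
  have h3 : (D ∪ some' S).card = D.card + (some' S).card := by
    rw [card_union_of_disjoint]
    rw [Finset.disjoint_left]
    intro v hv hv'
    exact Finset.disjoint_left.1 (comps_disjoint_S hC) (some'_subset hv') hv
  rw [unpiece_in hn, cc, cc, cc, h3]
  omega

end Pool.Agent.Chrom
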