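import Pool.Agent.Lib_helper46.Chrom.NSDefs
import Pool.Agent.Lib_helper88.Chrom.PieceG

/-!
# A vertex of degree two (note 1214, section 5.8)

`z` has exactly the neighbours `u`, `v`, which are not adjacent, all tight faces are crossed, and
the root `b` is one of `z`, `u`, `v`.  Then `b = z` (`degTwo_root`), in particular `StmtLemmaQ`.
-/

open Finset

namespace Pool.Agent.Chrom

variable {V : Type*} [Fintype V] [DecidableEq V]

set_option linter.unusedSectionVars false

variable {A : Finset V → Prop} {S T f g X C D E P : Finset V} {a b u v w x y z : V}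

/-- a member contains no edge -/
lemma Mem.not_adj88 (hf : Mem A f) (hu : u ∈ f) (hv : v ∈ f) : ¬ (gr A).Adj u v := by
  intro hadj
  refine hadj.2 (hf.1.2 _ ?_)
  rw [Finset.ssubset_iff_subset_ne]
  refine ⟨pair_subset_iff.2 ⟨hu, hv⟩, fun he => ?_⟩
  have h1 := hf.2
  rw [← he, card_pair hadj.1] at h1
  omega

namespace DegTwo

/-- the assumptions -/
structure Hyp (A : Finset V → Prop) (u v z : V) : Prop where
  nc : NC A
  four : 4 ≤ Fintype.card V
  cr : AllCrossed A
  nz : ∀ w, (gr A).Adj z w ↔ w = u ∨ w = v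
  ne : u ≠ v
  nadj : ¬ (gr A).Adj u v

namespace Hyp

variable (h : Hyp A u v z)

include h

lemma swap : Hyp A v u z where
  nc := h.nc
  four := h.four
  cr := h.cr
  nz := fun w => by rw [h.nz w]; exact or_comm
  ne := h.ne.symm
  nadj := fun hh => h.nadj hh.symm

lemma zu : (gr A).Adj z u := (h.nz u).2 (Or.inl rfl)

lemma zv : (gr A).Adj z v := (h.nz v).2 (Or.inr rfl)

lemma z_ne_u : z ≠ u := h.zu.ne

lemma z_ne_v : z ≠ v := h.zv.ne

lemma comp_z : comp (gr A) {u, v} z = {z} := by
  ext x
  rw [mem_comp, mem_singleton]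
  constructor
  · rintro ⟨p⟩
    cases p with
    | nil => rfl
    | cons hadj p =>
      exfalso
      rcases (h.nz _).1 hadj.1 with rfl | rfl
      · exact hadj.2.2 (by simp)
      · exact hadj.2.2 (by simp)
  · rintro rfl
    exact SimpleGraph.Reachable.refl _

lemma z_not_mem : z ∉ ({u, v} : Finset V) := by
  simp only [mem_insert, mem_singleton, not_or]
  exact ⟨h.z_ne_u, h.z_ne_v⟩

lemma face_uv : A {u, v} := by
  by_contra hA
  exact h.nadj ⟨h.ne, hA⟩

lemma kk_le : kk (gr A) {u, v} ≤ 2 := by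
  have := h.nc.face _ h.face_uv ⟨u, by simp⟩
  unfold cc at this
  rw [card_pair h.ne] at this
  omega

lemma reach_other (hx : x ≠ z) (hxu : x ≠ u) (hxv : x ≠ v) (hy : y ≠ z) (hyu : y ≠ u)
    (hyv : y ≠ v) : (del (gr A) {u, v}).Reachable x y := by
  have hx' : x ∉ ({u, v} : Finset V) := by simp [hxu, hxv]
  have hy' : y ∉ ({u, v} : Finset V) := by simp [hyu, hyv]
  by_contra hno
  have e1 : comp (gr A) {u, v} x ≠ comp (gr A) {u, v} y := by
    intro he
    refine hno ?_
    rw [← mem_comp, he]
    exact self_mem_comp y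
  have e2 : comp (gr A) {u, v} x ≠ comp (gr A) {u, v} z := by
    intro he
    rw [h.comp_z] at he
    have := self_mem_comp (G := gr A) (S := {u, v}) x
    rw [he, mem_singleton] at this
    exact hx this
  have e3 : comp (gr A) {u, v} y ≠ comp (gr A) {u, v} z := by
    intro he
    rw [h.comp_z] at he
    have := self_mem_comp (G := gr A) (S := {u, v}) y
    rw [he, mem_singleton] at this
    exact hy this
  have hsub : ({comp (gr A) {u, v} x, comp (gr A) {u, v} y, comp (gr A) {u, v} z} :
      Finset (Finset V)) ⊆ comps (gr A) {u, v} := by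
    intro C hC
    simp only [mem_insert, mem_singleton] at hC
    rcases hC with rfl | rfl | rfl
    · exact comp_mem_comps hx'
    · exact comp_mem_comps hy'
    · exact comp_mem_comps h.z_not_mem
  have hcard := card_le_card hsub
  rw [card_eq_three.2 ⟨_, _, _, e1, e2, e3, rfl⟩] at hcard
  have := h.kk_le
  unfold kk at this
  omega

lemma exists_other : ∃ x, x ≠ z ∧ x ≠ u ∧ x ≠ v := by
  by_contra hno
  push Not at hno
  have hsub : (univ : Finset V) ⊆ {z, u, v} := by
    intro x _
    simp only [mem_insert, mem_singleton]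
    by_cases hx : x = z
    · exact Or.inl hx
    · by_cases hu : x = u
      · exact Or.inr (Or.inl hu)
      · exact Or.inr (Or.inr (hno x hx hu))
  have h1 := card_le_card hsub
  have h2 : ({z, u, v} : Finset V).card ≤ 3 := card_le_three
  have h3 := h.four
  rw [Finset.card_univ] at h1
  omega

/-- the big component of `G - {u, v}` -/
lemma comp_other (hx : x ≠ z) (hxu : x ≠ u) (hxv : x ≠ v) :
    y ∈ comp (gr A) {u, v} x ↔ y ≠ z ∧ y ≠ u ∧ y ≠ v := by
  have hx' : x ∉ ({u, v} : Finset V) := by simp [hxu, hxv]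
  constructor
  · intro hy
    have h1 : y ∉ ({u, v} : Finset V) :=
      Finset.disjoint_left.1 (comp_disjoint hx') hy
    simp only [mem_insert, mem_singleton, not_or] at h1
    refine ⟨?_, h1⟩
    rintro rfl
    have h2 := comp_eq_of_mem hy
    rw [h.comp_z] at h2
    have h3 := self_mem_comp (G := gr A) (S := {u, v}) x
    rw [← h2, mem_singleton] at h3
    exact hx h3
  · rintro ⟨h1, h2, h3⟩
    rw [mem_comp]
    exact h.reach_other hx hxu hxv h1 h2 h3

lemma tight_uv : Tight A {u, v} := by
  refine ⟨h.face_uv, by rw [card_pair h.ne], ?_⟩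
  have h1 := h.nc.face _ h.face_uv ⟨u, by simp⟩
  obtain ⟨x, hx, hxu, hxv⟩ := h.exists_other
  have hx' : x ∉ ({u, v} : Finset V) := by simp [hxu, hxv]
  have e : comp (gr A) {u, v} x ≠ comp (gr A) {u, v} z := by
    intro he
    rw [h.comp_z] at he
    have := self_mem_comp (G := gr A) (S := {u, v}) x
    rw [he, mem_singleton] at this
    exact hx this
  have h2 : 2 ≤ kk (gr A) {u, v} := by
    unfold kk
    rw [← card_pair e]
    refine card_le_card ?_
    intro C hC
    rcases mem_insert.1 hC with rfl | hC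
    · exact comp_mem_comps hx'
    · rw [mem_singleton.1 hC]; exact comp_mem_comps h.z_not_mem
  unfold cc at h1 ⊢
  rw [card_pair h.ne] at h1 ⊢
  push_cast at h1 ⊢
  have h2' : (2 : ℤ) ≤ kk (gr A) {u, v} := by exact_mod_cast h2
  linarith

section member

variable (hf : Mem A f) (hzf : z ∈ f)

include hf hzf

lemma u_not_mem : u ∉ f := fun hu => hf.not_adj88 hzf hu h.zu

lemma v_not_mem : v ∉ f := fun hv => hf.not_adj88 hzf hv h.zv

lemma exists_mem : ∃ x ∈ f, x ≠ z ∧ x ≠ u ∧ x ≠ v := by
  obtain ⟨x, hx, hxz⟩ := Finset.exists_mem_ne (s := f) (by have := hf.2; omega) z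
  exact ⟨x, hx, hxz, fun he => h.u_not_mem hf hzf (he ▸ hx), fun he => h.v_not_mem hf hzf (he ▸ hx)⟩

/-- a member through `z` crosses `{u, v}` -/
lemma cross_uv : Cross A {u, v} f := by
  obtain ⟨x, hx, hxz, hxu, hxv⟩ := h.exists_mem hf hzf
  refine cross_of_not_reachable ?_ (h.tight_uv.qt h.nc) (Mem.qt h.nc hf) hzf hx ?_
  · rw [Finset.disjoint_left]
    intro w hw
    rcases mem_insert.1 hw with rfl | hw
    · exact h.u_not_mem hf hzf
    · rw [mem_singleton.1 hw]; exact h.v_not_mem hf hzf
  · rw [← mem_comp, h.comp_z, mem_singleton]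
    exact hxz

lemma not_reach_uv : ¬ (del (gr A) f).Reachable u v := by
  intro hr
  have hc := (h.cross_uv hf hzf).symm h.nc
  obtain ⟨p, hp, q, hq, hpq⟩ := hc.exists_not_reachable
  refine hpq ?_
  rw [mem_insert, mem_singleton] at hp hq
  rcases hp with hp | hp <;> rcases hq with hq | hq <;> rw [hp, hq]
  · exact hr
  · exact hr.symm

/-- the part of a member through `z` in the big component of `G - {u, v}` is tight, and `z`, `u`,
`v` lie in the outer component -/
lemma part : Tight A (f.erase z) ∧ (∀ p q, (p = z ∨ p = u ∨ p = v) → (q = z ∨ q = u ∨ q = v) →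
    (del (gr A) (f.erase z)).Reachable p q) := by
  obtain ⟨x, hx, hxz, hxu, hxv⟩ := h.exists_mem hf hzf
  have hx' : x ∉ ({u, v} : Finset V) := by simp [hxu, hxv]
  have hc := h.cross_uv hf hzf
  have hC : comp (gr A) {u, v} x ∈ comps (gr A) {u, v} := comp_mem_comps hx'
  have e : f ∩ comp (gr A) {u, v} x = f.erase z := by
    ext y
    rw [mem_inter, h.comp_other hxz hxu hxv, mem_erase]
    constructor
    · rintro ⟨h1, h2, _⟩; exact ⟨h2, h1⟩
    · rintro ⟨h1, h2⟩
      exact ⟨h2, h1, fun he => h.u_not_mem hf hzf (he ▸ h2), fun he => h.v_not_mem hf hzf (he ▸ h2)⟩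
  have hm : (f ∩ comp (gr A) {u, v} x).Nonempty := ⟨x, mem_inter.2 ⟨hx, self_mem_comp x⟩⟩
  constructor
  · rw [← e]
    refine hc.part_tight h.nc hC ?_
    rw [e, card_erase_of_mem hzf]
    have := hf.2
    omega
  · intro p q hp hq
    rw [← e]
    refine hc.reach h.nc hC hm ?_ ?_
    · rw [h.comp_other hxz hxu hxv]
      rintro ⟨h1, h2, h3⟩
      rcases hp with rfl | rfl | rfl
      · exact h1 rfl
      · exact h2 rfl
      · exact h3 rfl
    · rw [h.comp_other hxz hxu hxv]
      rintro ⟨h1, h2, h3⟩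
      rcases hq with rfl | rfl | rfl
      · exact h1 rfl
      · exact h2 rfl
      · exact h3 rfl

lemma z_not_mem_erase : z ∉ f.erase z := notMem_erase _ _

/-- the outer component of `G - (f - z)` is `{z} ∪ K_u ∪ K_v` -/
lemma mem_M : x ∈ comp (gr A) (f.erase z) z ↔
    x = z ∨ x ∈ comp (gr A) f u ∨ x ∈ comp (gr A) f v := by
  have hpart := (h.part hf hzf).2
  have hsub : f.erase z ⊆ f := erase_subset _ _
  constructor
  · intro hx
    by_cases hxz : x = z
    · exact Or.inl hxz
    right
    have hxf : x ∉ f := by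
      intro hxf
      exact Finset.disjoint_left.1 (comp_disjoint (h.z_not_mem_erase hf hzf)) hx
        (mem_erase.2 ⟨hxz, hxf⟩)
    by_contra hno
    push Not at hno
    have hE : comp (gr A) f x ∈ comps (gr A) f := comp_mem_comps hxf
    have hu : u ∉ comp (gr A) f x := by
      intro hu
      refine hno.1 ?_
      rw [comp_eq_of_mem hu]
      exact self_mem_comp x
    have hv : v ∉ comp (gr A) f x := by
      intro hv
      refine hno.2 ?_
      rw [comp_eq_of_mem hv]
      exact self_mem_comp x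
    have hE' : comp (gr A) f x ∈ comps (gr A) (f.erase z) := by
      refine comps_of_comps hE ?_ ?_
      · exact Finset.disjoint_of_subset_right hsub (comp_disjoint hxf)
      · intro p hp q hpq hq
        have hqf : q ∈ f := by
          by_contra hqf
          exact hq (comps_closed hE hp hpq hqf)
        refine mem_erase.2 ⟨?_, hqf⟩
        rintro rfl
        rcases (h.nz p).1 hpq.symm with rfl | rfl
        · exact hu hp
        · exact hv hp
    have h1 := comp_eq_of_mem_comps hE' (self_mem_comp x)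
    have h2 := comp_eq_of_mem hx
    refine hu ?_
    rw [← h1, h2, mem_comp]
    exact hpart z u (Or.inl rfl) (Or.inr (Or.inl rfl))
  · rintro (rfl | hx | hx)
    · exact self_mem_comp x
    · rw [mem_comp] at hx ⊢
      exact (hpart z u (Or.inl rfl) (Or.inr (Or.inl rfl))).trans (reachable_del_mono hsub hx)
    · rw [mem_comp] at hx ⊢
      exact (hpart z v (Or.inl rfl) (Or.inr (Or.inr rfl))).trans (reachable_del_mono hsub hx)

end member

/-! ### A member `g` crossing `f - z` -/

section crossing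

variable (hf : Mem A f) (hzf : z ∈ f) (hg : Mem A g) (hc : Cross A (f.erase z) g)

include hf hzf hg hc

lemma z_mem : z ∈ g := by
  by_contra hzg
  have hd : Disjoint f g := by
    rw [Finset.disjoint_left]
    intro x hx hx'
    by_cases hxz : x = z
    · exact hzg (hxz ▸ hx')
    · exact Finset.disjoint_left.1 hc.disj (mem_erase.2 ⟨hxz, hx⟩) hx'
  obtain ⟨p, hp, q, hq, hpq⟩ := hc.exists_not_reachable
  refine not_cross h.nc hf hg (cross_of_not_reachable hd (Mem.qt h.nc hf) (Mem.qt h.nc hg) hp hq ?_)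
  intro hr
  exact hpq (reachable_del_mono (erase_subset _ _) hr)

lemma eq_z (hxf : x ∈ f) (hxg : x ∈ g) : x = z := by
  by_contra hxz
  exact Finset.disjoint_left.1 hc.disj (mem_erase.2 ⟨hxz, hxf⟩) hxg

/-- the inner components: components of `G - g` inside `M` avoiding `f - z` -/
lemma inner_facts (hE : E ∈ avComps (gr A) g (f.erase z) (comp (gr A) (f.erase z) z)) :
    Conn (gr A) E ∧ Disjoint E f ∧ Disjoint E g ∧ E ∈ comps (gr A) g := by
  obtain ⟨h1, h2, h3⟩ := mem_avComps.1 hE
  have hzg := h.z_mem hf hzf hg hc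
  have hzE : z ∉ E := fun hz => Finset.disjoint_left.1 (comps_disjoint_S h1) hz hzg
  refine ⟨comps_conn h1, ?_, comps_disjoint_S h1, h1⟩
  rw [Finset.disjoint_left]
  intro x hx hxf
  by_cases hxz : x = z
  · exact hzE (hxz ▸ hx)
  · exact Finset.disjoint_left.1 h3 hx (mem_erase.2 ⟨hxz, hxf⟩)

lemma inner_or (hE : E ∈ avComps (gr A) g (f.erase z) (comp (gr A) (f.erase z) z)) :
    E ⊆ comp (gr A) f u ∨ E ⊆ comp (gr A) f v := by
  obtain ⟨h1, h2, h3, h4⟩ := h.inner_facts hf hzf hg hc hE
  obtain ⟨x, hx⟩ := h1.1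
  have hxM := (mem_avComps.1 hE).2.1 hx
  rw [h.mem_M hf hzf] at hxM
  rcases hxM with rfl | hxM | hxM
  · exact absurd (h.z_mem hf hzf hg hc) (Finset.disjoint_left.1 h3 hx)
  · left
    rw [← comp_eq_of_mem hxM]
    exact conn_subset_comp h1 h2 hx
  · right
    rw [← comp_eq_of_mem hxM]
    exact conn_subset_comp h1 h2 hx

lemma inner_not_both (hE : E ∈ avComps (gr A) g (f.erase z) (comp (gr A) (f.erase z) z))
    (h1 : E ⊆ comp (gr A) f u) (h2 : E ⊆ comp (gr A) f v) : False := by
  obtain ⟨x, hx⟩ := (h.inner_facts hf hzf hg hc hE).1.1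
  refine h.not_reach_uv hf hzf ?_
  have e1 := mem_comp.1 (h1 hx)
  have e2 := mem_comp.1 (h2 hx)
  exact e1.trans e2.symm

/-- an inner component in `K_u` is a component of `G - E_u` -/
lemma inner_comps (hE : E ∈ avComps (gr A) g (f.erase z) (comp (gr A) (f.erase z) z))
    (hEu : E ⊆ comp (gr A) f u) : E ∈ comps (gr A) (insert z (g ∩ comp (gr A) f u)) := by
  obtain ⟨h1, h2, h3, h4⟩ := h.inner_facts hf hzf hg hc hE
  have hzg := h.z_mem hf hzf hg hc
  refine comps_of_comps h4 ?_ ?_
  · rw [Finset.disjoint_left]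
    intro x hx hx'
    rcases mem_insert.1 hx' with rfl | hx'
    · exact Finset.disjoint_left.1 h3 hx hzg
    · exact Finset.disjoint_left.1 h3 hx (mem_inter.1 hx').1
  · intro p hp q hpq hq
    have hqg : q ∈ g := by
      by_contra hqg
      exact hq (comps_closed h4 hp hpq hqg)
    by_cases hqf : q ∈ f
    · rw [h.eq_z hf hzf hg hc hqf hqg]
      exact mem_insert_self _ _
    · refine mem_insert_of_mem (mem_inter.2 ⟨hqg, ?_⟩)
      have hpK := hEu hp
      rw [mem_comp] at hpK ⊢
      exact hpK.trans (SimpleGraph.Adj.reachable ⟨hpq, Finset.disjoint_left.1 h2 hp, hqf⟩)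

lemma M_mem : comp (gr A) (f.erase z) z ∈ comps (gr A) (f.erase z) :=
  comp_mem_comps (h.z_not_mem_erase hf hzf)

lemma M_meet : (g ∩ comp (gr A) (f.erase z) z).Nonempty :=
  ⟨z, mem_inter.2 ⟨h.z_mem hf hzf hg hc, self_mem_comp z⟩⟩

lemma face_part : A (g ∩ comp (gr A) (f.erase z) z) :=
  hc.part_face (h.M_mem hf hzf hg hc) (h.M_meet hf hzf hg hc)

lemma Eu_subset : insert z (g ∩ comp (gr A) f u) ⊆ g ∩ comp (gr A) (f.erase z) z := by
  intro x hx
  rcases mem_insert.1 hx with rfl | hx
  · exact mem_inter.2 ⟨h.z_mem hf hzf hg hc, self_mem_comp _⟩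
  · rw [mem_inter] at hx
    refine mem_inter.2 ⟨hx.1, ?_⟩
    rw [h.mem_M hf hzf]
    exact Or.inr (Or.inl hx.2)

lemma face_Eu : A (insert z (g ∩ comp (gr A) f u)) :=
  h.nc.down _ _ (h.Eu_subset hf hzf hg hc) (h.face_part hf hzf hg hc)

lemma z_not_mem_K : z ∉ comp (gr A) f u := by
  intro hz
  have hu := h.u_not_mem hf hzf
  exact Finset.disjoint_left.1 (comp_disjoint hu) hz hzf

lemma card_Eu : (insert z (g ∩ comp (gr A) f u)).card = (g ∩ comp (gr A) f u).card + 1 := by
  rw [card_insert_of_notMem]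
  intro hz
  exact h.z_not_mem_K hf hzf hg hc (mem_inter.1 hz).2

lemma kk_Eu_le : kk (gr A) (insert z (g ∩ comp (gr A) f u)) ≤ (g ∩ comp (gr A) f u).card + 1 := by
  have h1 := h.nc.face _ (h.face_Eu hf hzf hg hc) ⟨z, mem_insert_self _ _⟩
  unfold cc at h1
  rw [h.card_Eu hf hzf hg hc] at h1
  omega

/-- a point of `f - z` is not in `E_u` and not in an inner component -/
lemma exists_y : ∃ y ∈ f, y ≠ z ∧ y ∉ g := by
  obtain ⟨y, hy, hyz, _, _⟩ := h.exists_mem hf hzf
  exact ⟨y, hy, hyz, fun hyg => hyz (h.eq_z hf hzf hg hc hy hyg)⟩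

open Classical in
/-- the count on one side -/
lemma count_le : ((avComps (gr A) g (f.erase z) (comp (gr A) (f.erase z) z)).filter
    fun E => E ⊆ comp (gr A) f u).card + 1 ≤ kk (gr A) (insert z (g ∩ comp (gr A) f u)) := by
  obtain ⟨y, hy, hyz, hyg⟩ := h.exists_y hf hzf hg hc
  have hyE : y ∉ insert z (g ∩ comp (gr A) f u) := by
    simp only [mem_insert, mem_inter, not_or]
    exact ⟨hyz, fun hh => hyg hh.1⟩
  have hnot : comp (gr A) (insert z (g ∩ comp (gr A) f u)) y ∉
      (avComps (gr A) g (f.erase z) (comp (gr A) (f.erase z) z)).filter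
        fun E => E ⊆ comp (gr A) f u := by
    intro hh
    have h1 := (mem_filter.1 hh).1
    exact Finset.disjoint_left.1 (h.inner_facts hf hzf hg hc h1).2.1 (self_mem_comp y) hy
  unfold kk
  rw [← card_insert_of_notMem hnot]
  refine card_le_card ?_
  intro E hE
  rcases mem_insert.1 hE with rfl | hE
  · exact comp_mem_comps hyE
  · rw [mem_filter] at hE
    exact h.inner_comps hf hzf hg hc hE.1 hE.2

open Classical in
lemma count_eq : ((avComps (gr A) g (f.erase z) (comp (gr A) (f.erase z) z)).filter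
    fun E => E ⊆ comp (gr A) f u).card = (g ∩ comp (gr A) f u).card := by
  have hu1 := h.count_le hf hzf hg hc
  have hu2 := h.kk_Eu_le hf hzf hg hc
  have hv1 := h.swap.count_le hf hzf hg hc
  have hv2 := h.swap.kk_Eu_le hf hzf hg hc
  have hk := ((hc.lemma h.nc).2.2.2.1 _ (Cross.mem_meet (h.M_mem hf hzf hg hc)
    (h.M_meet hf hzf hg hc)))
  obtain ⟨hk0, hk1⟩ := hk
  have hcard : (avComps (gr A) g (f.erase z) (comp (gr A) (f.erase z) z)).card + 1
      = (g ∩ comp (gr A) (f.erase z) z).card := by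
    rw [cc, hk1] at hk0
    push_cast at hk0
    omega
  have hsplit : (avComps (gr A) g (f.erase z) (comp (gr A) (f.erase z) z)).card
      = ((avComps (gr A) g (f.erase z) (comp (gr A) (f.erase z) z)).filter
          fun E => E ⊆ comp (gr A) f u).card +
        ((avComps (gr A) g (f.erase z) (comp (gr A) (f.erase z) z)).filter
          fun E => E ⊆ comp (gr A) f v).card := by
    rw [← card_union_of_disjoint]
    · congr 1
      ext E
      rw [mem_union, mem_filter, mem_filter]
      constructor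
      · intro hE
        rcases h.inner_or hf hzf hg hc hE with h1 | h1
        · exact Or.inl ⟨hE, h1⟩
        · exact Or.inr ⟨hE, h1⟩
      · rintro (hE | hE) <;> exact hE.1
    · rw [Finset.disjoint_left]
      intro E hE hE'
      rw [mem_filter] at hE hE'
      exact h.inner_not_both hf hzf hg hc hE.1 hE.2 hE'.2
  have hM : (g ∩ comp (gr A) (f.erase z) z).card
      = 1 + ((g ∩ comp (gr A) f u).card + (g ∩ comp (gr A) f v).card) := by
    have e : g ∩ comp (gr A) (f.erase z) z
        = insert z ((g ∩ comp (gr A) f u) ∪ (g ∩ comp (gr A) f v)) := by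
      ext x
      simp only [mem_inter, mem_insert, mem_union, h.mem_M hf hzf]
      constructor
      · rintro ⟨h1, h2 | h2 | h2⟩
        · exact Or.inl h2
        · exact Or.inr (Or.inl ⟨h1, h2⟩)
        · exact Or.inr (Or.inr ⟨h1, h2⟩)
      · rintro (h1 | h1 | h1)
        · exact ⟨h1 ▸ h.z_mem hf hzf hg hc, Or.inl h1⟩
        · exact ⟨h1.1, Or.inr (Or.inl h1.2)⟩
        · exact ⟨h1.1, Or.inr (Or.inr h1.2)⟩
    rw [e, card_insert_of_notMem, card_union_of_disjoint, add_comm]
    · rw [Finset.disjoint_left]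
      intro x hx hx'
      refine h.not_reach_uv hf hzf ?_
      have e1 := mem_comp.1 (mem_inter.1 hx).2
      have e2 := mem_comp.1 (mem_inter.1 hx').2
      exact e1.trans e2.symm
    · intro hz
      rcases mem_union.1 hz with hz | hz
      · exact h.z_not_mem_K hf hzf hg hc (mem_inter.1 hz).2
      · exact h.swap.z_not_mem_K hf hzf hg hc (mem_inter.1 hz).2
  omega

/-- `k(G - E_u) = |E_u|` -/
lemma kk_Eu : kk (gr A) (insert z (g ∩ comp (gr A) f u)) = (g ∩ comp (gr A) f u).card + 1 := by
  have h1 := h.count_le hf hzf hg hc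
  have h2 := h.kk_Eu_le hf hzf hg hc
  have h3 := h.count_eq hf hzf hg hc
  omega

open Classical in
/-- all components of `G - E_u` except one are inner components -/
lemma outer_Eu {y : V} (hy : y ∈ f) (hyz : y ≠ z) (hx : x ∉ insert z (g ∩ comp (gr A) f u))
    (hx' : ∀ E ∈ avComps (gr A) g (f.erase z) (comp (gr A) (f.erase z) z),
      E ⊆ comp (gr A) f u → x ∉ E) :
    (del (gr A) (insert z (g ∩ comp (gr A) f u))).Reachable y x := by
  have hyg : y ∉ g := fun hyg => hyz (h.eq_z hf hzf hg hc hy hyg)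
  have hyE : y ∉ insert z (g ∩ comp (gr A) f u) := by
    simp only [mem_insert, mem_inter, not_or]
    exact ⟨hyz, fun hh => hyg hh.1⟩
  set I := (avComps (gr A) g (f.erase z) (comp (gr A) (f.erase z) z)).filter
        fun E => E ⊆ comp (gr A) f u with hI
  have hnoty : comp (gr A) (insert z (g ∩ comp (gr A) f u)) y ∉ I := by
    intro hh
    have h1 := (mem_filter.1 hh).1
    exact Finset.disjoint_left.1 (h.inner_facts hf hzf hg hc h1).2.1 (self_mem_comp y) hy
  have hnotx : comp (gr A) (insert z (g ∩ comp (gr A) f u)) x ∉ I := by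
    intro hh
    exact hx' _ (mem_filter.1 hh).1 (mem_filter.1 hh).2 (self_mem_comp x)
  by_contra hno
  have hne : comp (gr A) (insert z (g ∩ comp (gr A) f u)) x
      ≠ comp (gr A) (insert z (g ∩ comp (gr A) f u)) y := by
    intro he
    refine hno ?_
    rw [← mem_comp, ← he]
    exact self_mem_comp x
  have hsub : insert (comp (gr A) (insert z (g ∩ comp (gr A) f u)) x)
      (insert (comp (gr A) (insert z (g ∩ comp (gr A) f u)) y) I)
        ⊆ comps (gr A) (insert z (g ∩ comp (gr A) f u)) := by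
    intro E hE
    rcases mem_insert.1 hE with rfl | hE
    · exact comp_mem_comps hx
    rcases mem_insert.1 hE with rfl | hE
    · exact comp_mem_comps hyE
    · rw [hI, mem_filter] at hE
      exact h.inner_comps hf hzf hg hc hE.1 hE.2
  have h1 := card_le_card hsub
  rw [card_insert_of_notMem, card_insert_of_notMem hnoty] at h1
  · have h2 := h.kk_Eu hf hzf hg hc
    have h3 := h.count_eq hf hzf hg hc
    unfold kk at h2
    rw [← hI] at h3
    omega
  · intro hh
    rcases mem_insert.1 hh with hh | hh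
    · exact hne hh
    · exact hnotx hh

end crossing

/-! ### The root -/

lemma a_not_mem_M (hr : Root A a b) (hb : b = z ∨ b = u ∨ b = v) (hf : Mem A f) (hzf : z ∈ f) :
    a ∉ comp (gr A) (f.erase z) z := by
  intro ha
  have hp := h.part hf hzf
  rcases hr _ hp.1 with h1 | h1 | h1
  · exact Finset.disjoint_left.1 (comp_disjoint (h.z_not_mem_erase hf hzf)) ha h1
  · rcases hb with rfl | rfl | rfl
    · exact h.z_not_mem_erase hf hzf h1
    · exact h.u_not_mem hf hzf (mem_erase.1 h1).2
    · exact h.v_not_mem hf hzf (mem_erase.1 h1).2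
  · exact h1 ((mem_comp.1 ha).symm.trans (hp.2 z b (Or.inl rfl) hb))

section root

variable (hr : Root A a b) (hb : b = z ∨ b = u ∨ b = v)
variable (hf : Mem A f) (hzf : z ∈ f) (hg : Mem A g) (hc : Cross A (f.erase z) g)

include hr hb hf hzf hg hc

open Classical in
theorem d1 (hne : (g ∩ comp (gr A) f u).Nonempty) :
    Tight A (insert z (g ∩ comp (gr A) f u)) ∧ (b = z ∨ b = u) ∧
      a ∉ insert z (g ∩ comp (gr A) f u) ∧ v ∉ insert z (g ∩ comp (gr A) f u) ∧
      (del (gr A) (insert z (g ∩ comp (gr A) f u))).Reachable a v ∧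
      Disjoint (comp (gr A) g u) (f.erase z) := by
  have hzg := h.z_mem hf hzf hg hc
  have haM := h.a_not_mem_M hr hb hf hzf
  have hkk := h.kk_Eu hf hzf hg hc
  have hcard := h.card_Eu hf hzf hg hc
  have hface := h.face_Eu hf hzf hg hc
  have hT : Tight A (insert z (g ∩ comp (gr A) f u)) := by
    refine ⟨hface, ?_, ?_⟩
    · rw [hcard]
      have := card_pos.2 hne
      omega
    · rw [cc, hkk, hcard]
      simp
  have haE : a ∉ insert z (g ∩ comp (gr A) f u) := fun ha =>
    haM (mem_inter.1 (h.Eu_subset hf hzf hg hc ha)).2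
  have hvK : v ∉ comp (gr A) f u := fun hv => h.not_reach_uv hf hzf (mem_comp.1 hv)
  have hvE : v ∉ insert z (g ∩ comp (gr A) f u) := by
    simp only [mem_insert, mem_inter, not_or]
    exact ⟨h.z_ne_v.symm, fun hh => h.v_not_mem hg hzg hh.1⟩
  obtain ⟨y, hy, hyz, hyg⟩ := h.exists_y hf hzf hg hc
  have hya := h.outer_Eu hf hzf hg hc hy hyz haE (fun E hE _ haE' =>
    haM ((mem_avComps.1 hE).2.1 haE'))
  have hyv := h.outer_Eu hf hzf hg hc hy hyz hvE (fun E hE hEK hvE' => hvK (hEK hvE'))
  have hav := hya.symm.trans hyv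
  refine ⟨hT, ?_, haE, hvE, hav, ?_⟩
  · rcases hb with h1 | h1 | h1
    · exact Or.inl h1
    · exact Or.inr h1
    · exfalso
      rcases hr _ hT with h2 | h2 | h2
      · exact haE h2
      · rw [h1] at h2; exact hvE h2
      · rw [h1] at h2; exact h2 hav
  · -- `u` lies in an inner component
    have hex : ∃ E ∈ avComps (gr A) g (f.erase z) (comp (gr A) (f.erase z) z),
        E ⊆ comp (gr A) f u ∧ u ∈ E := by
      by_contra hno
      push Not at hno
      have hF : A (g ∩ comp (gr A) f u) := h.nc.down _ _ (subset_insert _ _) hface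
      have hyE : y ∉ g ∩ comp (gr A) f u := fun hh => hyg (mem_inter.1 hh).1
      set I := (avComps (gr A) g (f.erase z) (comp (gr A) (f.erase z) z)).filter
        fun E => E ⊆ comp (gr A) f u with hI
      have hnot : comp (gr A) (g ∩ comp (gr A) f u) y ∉ I := by
        intro hh
        have h1 := (mem_filter.1 hh).1
        exact Finset.disjoint_left.1 (h.inner_facts hf hzf hg hc h1).2.1 (self_mem_comp y) hy
      have hsub : insert (comp (gr A) (g ∩ comp (gr A) f u) y) I
          ⊆ comps (gr A) (g ∩ comp (gr A) f u) := by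
        intro E hE
        rcases mem_insert.1 hE with rfl | hE
        · exact comp_mem_comps hyE
        · rw [hI, mem_filter] at hE
          have h1 := h.inner_comps hf hzf hg hc hE.1 hE.2
          refine comps_of_comps h1 ?_ ?_
          · exact Finset.disjoint_of_subset_right (subset_insert _ _) (comps_disjoint_S h1)
          · intro p hp q hpq hq
            have hq' : q ∈ insert z (g ∩ comp (gr A) f u) := by
              by_contra hq'
              exact hq (comps_closed h1 hp hpq hq')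
            rcases mem_insert.1 hq' with rfl | hq'
            · exfalso
              rcases (h.nz p).1 hpq.symm with rfl | rfl
              · exact hno E hE.1 hE.2 hp
              · exact hvK (hE.2 hp)
            · exact hq'
      have h1 := card_le_card hsub
      rw [card_insert_of_notMem hnot] at h1
      have h2 := h.nc.face _ hF hne
      unfold cc kk at h2
      have h3 := h.count_eq hf hzf hg hc
      rw [← hI] at h3
      omega
    obtain ⟨E, hE, _, huE⟩ := hex
    obtain ⟨_, h2, _, h4⟩ := h.inner_facts hf hzf hg hc hE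
    rw [comp_eq_of_mem_comps h4 huE]
    exact Finset.disjoint_of_subset_right (erase_subset _ _) h2

end root

lemma K_sub (hf : Mem A f) (hzf : z ∈ f) (hg : Mem A g) (hc : Cross A (f.erase z) g)
    (he : ¬ (g ∩ comp (gr A) f u).Nonempty) :
    comp (gr A) f u ⊆ comp (gr A) g u ∧ ∃ q ∈ f.erase z, q ∈ comp (gr A) g u := by
  have hzg := h.z_mem hf hzf hg hc
  have hu := h.u_not_mem hf hzf
  have hC : comp (gr A) f u ∈ comps (gr A) f := comp_mem_comps hu
  have hsub : comp (gr A) f u ⊆ comp (gr A) g u := by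
    refine conn_subset_comp (comps_conn hC) ?_ (self_mem_comp u)
    rw [Finset.disjoint_left]
    intro x hx hxg
    exact he ⟨x, mem_inter.2 ⟨hxg, hx⟩⟩
  refine ⟨hsub, ?_⟩
  obtain ⟨p, hp, q, hq, hqz, hpq⟩ := exists_adj_out h.nc (E := comp (gr A) f u) (x := z)
    (self_mem_comp u) (h.z_not_mem_K hf hzf hg hc)
    (v := v) (fun hv => h.not_reach_uv hf hzf (mem_comp.1 hv)) h.z_ne_v.symm
  have hqf : q ∈ f := by
    by_contra hqf
    exact hq (comps_closed hC hp hpq hqf)
  have hqg : q ∉ g := fun hqg => hqz (h.eq_z hf hzf hg hc hqf hqg)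
  refine ⟨q, mem_erase.2 ⟨hqz, hqf⟩, ?_⟩
  exact comps_closed (comp_mem_comps (h.u_not_mem hg hzg)) (hsub hp) hpq hqg

/-- the mixed case: `g` meets `K_u(f)` but not `K_v(f)` -/
lemma mixed (hr : Root A a b) (hb : b = z ∨ b = u ∨ b = v)
    (hf : Mem A f) (hzf : z ∈ f) (hg : Mem A g) (hc : Cross A (f.erase z) g)
    (hne : (g ∩ comp (gr A) f u).Nonempty) (he : ¬ (g ∩ comp (gr A) f v).Nonempty) : b = z := by
  have hzg := h.z_mem hf hzf hg hc
  obtain ⟨_, h1, _, _, _, h2⟩ := h.d1 hr hb hf hzf hg hc hne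
  obtain ⟨_, q, hq, hqv⟩ := h.swap.K_sub hf hzf hg hc he
  obtain ⟨y, hy, hqy⟩ := (hc.symm h.nc).exists_other q
  have hyz : y ≠ z := (mem_erase.1 hy).1
  have hyf : y ∈ f := (mem_erase.1 hy).2
  have hyM : y ∉ comp (gr A) (g.erase z) z := by
    rw [h.mem_M hg hzg]
    rintro (h3 | h3 | h3)
    · exact hyz h3
    · exact Finset.disjoint_left.1 h2 h3 hy
    · refine hqy ?_
      rw [mem_comp] at hqv h3
      exact hqv.symm.trans h3
  have hc' : Cross A (g.erase z) f := by
    refine cross_of_not_reachable ?_ ((h.part hg hzg).1.qt h.nc) (Mem.qt h.nc hf) hzf hyf ?_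
    · rw [Finset.disjoint_left]
      intro x hx hxf
      rw [mem_erase] at hx
      exact hx.1 (h.eq_z hf hzf hg hc hxf hx.2)
    · rw [← mem_comp]
      exact hyM
  have hne' : (f ∩ comp (gr A) g v).Nonempty := ⟨q, mem_inter.2 ⟨(mem_erase.1 hq).2, hqv⟩⟩
  have hb' : b = z ∨ b = v ∨ b = u := by
    rcases hb with hb | hb | hb
    · exact Or.inl hb
    · exact Or.inr (Or.inr hb)
    · exact Or.inr (Or.inl hb)
  obtain ⟨_, h3, _⟩ := h.swap.d1 hr hb' hg hzg hf hc' hne'
  rcases h1 with h1 | h1
  · exact h1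
  · rcases h3 with h3 | h3
    · exact h3
    · exact absurd (h1.symm.trans h3) h.ne

/-- **the root is `z`**, and there is a tight face through `z` with `a` and one of `u`, `v` in the
same component -/
theorem root_eq (hr : Root A a b) (hb : b = z ∨ b = u ∨ b = v) :
    b = z ∧ ∃ w, (w = u ∨ w = v) ∧ ∃ E, Tight A E ∧ z ∈ E ∧ a ∉ E ∧ w ∉ E ∧
      (del (gr A) E).Reachable a w := by
  classical
  have hb' : b = z ∨ b = v ∨ b = u := by
    rcases hb with hb | hb | hb
    · exact Or.inl hb
    · exact Or.inr (Or.inr hb)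
    · exact Or.inr (Or.inl hb)
  -- a member through `z`
  obtain ⟨f₀, hf₀, hc₀⟩ := (h.cr _ h.tight_uv).cross h.nc h.tight_uv
  have hzf₀ : z ∈ f₀ := by
    by_contra hz
    obtain ⟨p, hp, q, hq, hpq⟩ := hc₀.exists_not_reachable
    have hne : ∀ x ∈ f₀, x ≠ z ∧ x ≠ u ∧ x ≠ v := by
      intro x hx
      refine ⟨fun he => hz (he ▸ hx), ?_, ?_⟩
      · rintro rfl; exact Finset.disjoint_right.1 hc₀.disj hx (by simp)
      · rintro rfl; exact Finset.disjoint_right.1 hc₀.disj hx (by simp)
    obtain ⟨a1, a2, a3⟩ := hne p hp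
    obtain ⟨b1, b2, b3⟩ := hne q hq
    exact hpq (h.reach_other a1 a2 a3 b1 b2 b3)
  -- choose one with the largest outer component
  obtain ⟨f, hfm, hmax⟩ := Finset.exists_max_image
    ((univ : Finset (Finset V)).filter fun f => Mem A f ∧ z ∈ f)
    (fun f => (comp (gr A) (f.erase z) z).card) ⟨f₀, by simp [hf₀, hzf₀]⟩
  rw [mem_filter] at hfm
  obtain ⟨_, hf, hzf⟩ := hfm
  have hY := (h.part hf hzf).1
  obtain ⟨g, hg, hc⟩ := (h.cr _ hY).cross h.nc hY
  have hzg := h.z_mem hf hzf hg hc
  by_cases h1 : (g ∩ comp (gr A) f u).Nonempty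
  · obtain ⟨t1, t2, t3, t4, t5, _⟩ := h.d1 hr hb hf hzf hg hc h1
    refine ⟨?_, v, Or.inr rfl, _, t1, mem_insert_self _ _, t3, t4, t5⟩
    by_cases h2 : (g ∩ comp (gr A) f v).Nonempty
    · obtain ⟨_, s2, _⟩ := h.swap.d1 hr hb' hf hzf hg hc h2
      rcases t2 with t2 | t2
      · exact t2
      · rcases s2 with s2 | s2
        · exact s2
        · exact absurd (t2.symm.trans s2) h.ne
    · exact h.mixed hr hb hf hzf hg hc h1 h2
  · by_cases h2 : (g ∩ comp (gr A) f v).Nonempty
    · obtain ⟨t1, t2, t3, t4, t5, _⟩ := h.swap.d1 hr hb' hf hzf hg hc h2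
      refine ⟨?_, u, Or.inl rfl, _, t1, mem_insert_self _ _, t3, t4, t5⟩
      exact h.swap.mixed hr hb' hf hzf hg hc h2 h1
    · exfalso
      obtain ⟨k1, q, hq, hqu⟩ := h.K_sub hf hzf hg hc h1
      obtain ⟨k2, _⟩ := h.swap.K_sub hf hzf hg hc h2
      have hss : comp (gr A) (f.erase z) z ⊂ comp (gr A) (g.erase z) z := by
        rw [Finset.ssubset_iff_of_subset]
        · refine ⟨q, ?_, ?_⟩
          · rw [h.mem_M hg hzg]; exact Or.inr (Or.inl hqu)
          · exact fun hh => Finset.disjoint_left.1 (comp_disjoint (h.z_not_mem_erase hf hzf)) hh hq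
        · intro x hx
          rw [h.mem_M hf hzf] at hx
          rw [h.mem_M hg hzg]
          rcases hx with hx | hx | hx
          · exact Or.inl hx
          · exact Or.inr (Or.inl (k1 hx))
          · exact Or.inr (Or.inr (k2 hx))
      have := hmax g (by simp [hg, hzg])
      have := card_lt_card hss
      omega

end Hyp

end DegTwo

/-- Lemma Q -/
theorem lemmaQ : StmtLemmaQ := by
  intro V _ _ A a b v z h hr h4 hcr hz hne hadj
  have H : DegTwo.Hyp A b v z := ⟨h, h4, hcr, hz, hne, hadj⟩
  exact H.z_ne_u (H.root_eq hr (Or.inr (Or.inl rfl))).1.symm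

end Pool.Agent.Chrom
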