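import Pool.Agent.Lib_helper88.Chrom.Mono

/-!
# The product formula for colourings with a monochromatic set

`D` is a nonempty set of vertices, `𝒞` a partition of the other vertices.  `piece A D C` is the
family on `Option C` (`none` is the contracted set `D`) induced by `A`.  If `A` splits over `𝒞` then
`X ^ |𝒞| * monoPoly A D = X * ∏ C ∈ 𝒞, poly (piece A D C)`.
-/

open Finset Polynomial

namespace Pool.Agent.Chrom

variable {V : Type*} [Fintype V] [DecidableEq V]

set_option linter.unusedSectionVars false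

/-- the vertices of `C` in `S : Finset (Option C)` -/
def some' {C : Finset V} (S : Finset (Option {v // v ∈ C})) : Finset V :=
  (univ.filter fun v : {v // v ∈ C} => some v ∈ S).map (Function.Embedding.subtype _)

lemma mem_some' {C : Finset V} {S : Finset (Option {v // v ∈ C})} {v : V} :
    v ∈ some' S ↔ ∃ h : v ∈ C, (some ⟨v, h⟩ : Option {v // v ∈ C}) ∈ S := by
  unfold some'
  rw [mem_map]
  constructor
  · rintro ⟨w, hw, rfl⟩
    rw [mem_filter] at hw
    exact ⟨w.2, hw.2⟩
  · rintro ⟨h, hS⟩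
    exact ⟨⟨v, h⟩, by rw [mem_filter]; exact ⟨mem_univ _, hS⟩, rfl⟩

/-- the preimage in `V` of a set of vertices of `G[C ∪ D] / D` -/
def unpiece (D C : Finset V) (S : Finset (Option {v // v ∈ C})) : Finset V :=
  if none ∈ S then D ∪ some' S else some' S

/-- the family on `Option C` obtained from `A` by restriction to `C ∪ D` and contraction of `D` -/
def piece (A : Finset V → Prop) (D C : Finset V) : Finset (Option {v // v ∈ C}) → Prop :=
  fun S => A (unpiece D C S)

/-- `A` splits over the partition `𝒞` of the complement of `D` -/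
structure Splits (A : Finset V → Prop) (D : Finset V) (𝒞 : Finset (Finset V)) : Prop where
  disj : ∀ C ∈ 𝒞, ∀ C' ∈ 𝒞, C ≠ C' → Disjoint C C'
  disjD : ∀ C ∈ 𝒞, Disjoint C D
  cover : ∀ v, v ∉ D → ∃ C ∈ 𝒞, v ∈ C
  out : ∀ S : Finset V, S.Nonempty → Disjoint S D →
    (A S ↔ ∀ C ∈ 𝒞, (S ∩ C).Nonempty → A (S ∩ C))
  inn : ∀ S : Finset V, D ⊆ S → (A S ↔ ∀ C ∈ 𝒞, A (D ∪ (S ∩ C)))

/-- colourings in which `v` has the colour `c` -/
noncomputable def fixcnt (A : Finset V → Prop) (v : V) {N : ℕ} (c : Fin N) : ℕ :=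
  Nat.card {f : V → Fin N // Good A f ∧ f v = c}

lemma fixcnt_eq (A : Finset V → Prop) (v : V) {N : ℕ} (c c' : Fin N) :
    fixcnt A v c = fixcnt A v c' := by
  unfold fixcnt
  refine Nat.card_congr ((Equiv.arrowCongr (Equiv.refl V) (Equiv.swap c c')).subtypeEquiv fun f => ?_)
  have h1 : (Equiv.arrowCongr (Equiv.refl V) (Equiv.swap c c')) f = (Equiv.swap c c') ∘ f := by
    funext w; simp
  rw [h1, good_comp f (Equiv.swap c c').injective]
  refine and_congr Iff.rfl ?_
  rw [Function.comp_apply, Equiv.swap_apply_eq_iff, Equiv.swap_apply_right]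

lemma sum_fixcnt (A : Finset V → Prop) (v : V) (N : ℕ) :
    ∑ c : Fin N, fixcnt A v c = cnt A N := by
  classical
  unfold fixcnt cnt
  rw [← Nat.card_sigma]
  refine Nat.card_congr
    { toFun := fun p => ⟨p.2.1, p.2.2.1⟩
      invFun := fun f => ⟨f.1 v, f.1, f.2, rfl⟩
      left_inv := ?_
      right_inv := fun f => rfl }
  rintro ⟨c, f, hf, rfl⟩
  rfl

lemma mul_fixcnt (A : Finset V → Prop) (v : V) {N : ℕ} (c : Fin N) :
    N * fixcnt A v c = cnt A N := by
  rw [← sum_fixcnt A v N, Finset.sum_congr rfl fun c' _ => fixcnt_eq A v c' c]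
  simp

/-- restriction of a colouring to a piece; `c` is the colour of `D` -/
def restr {N : ℕ} (f : V → Fin N) (c : Fin N) (C : Finset V) : Option {v // v ∈ C} → Fin N
  | none => c
  | some v => f v

lemma unpiece_cls_ne {N : ℕ} {f : V → Fin N} {c : Fin N} {D C : Finset V}
    (v : {v // v ∈ C}) (hv : f v ≠ c) :
    unpiece D C (cls (restr f c C) (some v)) = cls f v ∩ C := by
  have hn : (none : Option {v // v ∈ C}) ∉ cls (restr f c C) (some v) := by
    rw [mem_cls]; exact fun h => hv h.symm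
  rw [unpiece, if_neg hn]
  ext w
  rw [mem_some', mem_inter, mem_cls]
  constructor
  · rintro ⟨h, hw⟩
    rw [mem_cls] at hw
    exact ⟨hw, h⟩
  · rintro ⟨h, hw⟩
    refine ⟨hw, ?_⟩
    rw [mem_cls]; exact h

lemma unpiece_cls_eq {N : ℕ} {f : V → Fin N} {c : Fin N} {D C : Finset V}
    (p : Option {v // v ∈ C}) (hp : restr f c C p = c) :
    unpiece D C (cls (restr f c C) p) = D ∪ ((univ.filter fun v => f v = c) ∩ C) := by
  have hn : (none : Option {v // v ∈ C}) ∈ cls (restr f c C) p := by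
    rw [mem_cls, hp]; rfl
  rw [unpiece, if_pos hn]
  congr 1
  ext w
  rw [mem_some', mem_inter, mem_filter]
  constructor
  · rintro ⟨h, hw⟩
    rw [mem_cls, hp] at hw
    exact ⟨⟨mem_univ _, hw⟩, h⟩
  · rintro ⟨⟨_, h⟩, hw⟩
    refine ⟨hw, ?_⟩
    rw [mem_cls, hp]; exact h

lemma good_iff_restr {A : Finset V → Prop} {D : Finset V} {𝒞 : Finset (Finset V)}
    (hA : Splits A D 𝒞) (hD : D.Nonempty) {N : ℕ} {f : V → Fin N} {c : Fin N}
    (hf : ∀ v ∈ D, f v = c) :
    Good A f ↔ ∀ C ∈ 𝒞, Good (piece A D C) (restr f c C) := by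
  obtain ⟨d, hd⟩ := hD
  have hcls : ∀ v, f v = c → cls f v = univ.filter fun v => f v = c := by
    intro v hv; ext w; simp [hv]
  have hsub : D ⊆ univ.filter fun v => f v = c := fun v hv => by
    rw [mem_filter]; exact ⟨mem_univ _, hf v hv⟩
  constructor
  · intro h C hC p
    unfold piece
    by_cases hp : restr f c C p = c
    · rw [unpiece_cls_eq p hp]
      have h1 := h d
      rw [hcls d (hf d hd), hA.inn _ hsub] at h1
      exact h1 C hC
    · cases p with
      | none => exact absurd rfl hp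
      | some v =>
        have hv : f v ≠ c := hp
        rw [unpiece_cls_ne v hv]
        have h1 := h v
        rw [hA.out _ ⟨v, by simp⟩] at h1
        · exact h1 C hC ⟨v, by rw [mem_inter, mem_cls]; exact ⟨rfl, v.2⟩⟩
        · rw [Finset.disjoint_left]
          intro w hw hw'
          rw [mem_cls, hf w hw'] at hw
          exact hv hw.symm
  · intro h v
    by_cases hv : f v = c
    · rw [hcls v hv, hA.inn _ hsub]
      intro C hC
      have h1 := h C hC none
      unfold piece at h1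
      rwa [unpiece_cls_eq none rfl] at h1
    · have hdis : Disjoint (cls f v) D := by
        rw [Finset.disjoint_left]
        intro w hw hw'
        rw [mem_cls, hf w hw'] at hw
        exact hv hw.symm
      rw [hA.out _ ⟨v, by simp⟩ hdis]
      rintro C hC ⟨w, hw⟩
      rw [mem_inter, mem_cls] at hw
      have h1 := h C hC (some ⟨w, hw.2⟩)
      unfold piece at h1
      have hwc : f w ≠ c := by rw [hw.1]; exact hv
      rw [unpiece_cls_ne ⟨w, hw.2⟩ hwc] at h1
      have e : cls f w = cls f v := by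
        ext u; rw [mem_cls, mem_cls, hw.1]
      rwa [e] at h1

/-- colourings with `D` of colour `c` -/
lemma card_colour_eq {A : Finset V → Prop} {D : Finset V} {𝒞 : Finset (Finset V)}
    (hA : Splits A D 𝒞) (hD : D.Nonempty) {N : ℕ} (c : Fin N) :
    Nat.card {f : V → Fin N // Good A f ∧ ∀ v ∈ D, f v = c}
      = ∏ C ∈ 𝒞, fixcnt (piece A D C) none c := by
  classical
  have hprod : ∏ C ∈ 𝒞, fixcnt (piece A D C) none c
      = ∏ C : {C // C ∈ 𝒞}, fixcnt (piece A D C.1) none c := by
    rw [← Finset.prod_coe_sort]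
  rw [hprod]
  unfold fixcnt
  rw [← Nat.card_pi]
  let toF : {f : V → Fin N // Good A f ∧ ∀ v ∈ D, f v = c} →
      (∀ C : {C // C ∈ 𝒞}, {g : Option {v // v ∈ C.1} → Fin N //
        Good (piece A D C.1) g ∧ g none = c}) :=
    fun f C => ⟨restr f.1 c C.1, (good_iff_restr hA hD f.2.2).1 f.2.1 C.1 C.2, rfl⟩
  refine Nat.card_congr (Equiv.ofBijective toF ⟨?_, ?_⟩)
  · rintro ⟨f, hf, hf'⟩ ⟨g, hg, hg'⟩ h
    ext v
    by_cases hv : v ∈ D
    · simp only
      rw [hf' v hv, hg' v hv]
    · obtain ⟨C, hC, hvC⟩ := hA.cover v hv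
      have h1 := congrArg (fun F => (F ⟨C, hC⟩).1 (some ⟨v, hvC⟩)) h
      exact congrArg Fin.val h1
  · intro g
    have hch : ∀ v, v ∉ D → ∃ C, C ∈ 𝒞 ∧ v ∈ C := fun v hv => by
      obtain ⟨C, hC, hvC⟩ := hA.cover v hv
      exact ⟨C, hC, hvC⟩
    let f : V → Fin N := fun v =>
      if h : v ∈ D then c
      else (g ⟨Classical.choose (hch v h), (Classical.choose_spec (hch v h)).1⟩).1
        (some ⟨v, (Classical.choose_spec (hch v h)).2⟩)
    have hfD : ∀ v ∈ D, f v = c := fun v hv => by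
      simp only [f, dif_pos hv]
    have hfC : ∀ C : {C // C ∈ 𝒞}, ∀ v : {v // v ∈ C.1}, f v = (g C).1 (some v) := by
      intro C v
      have hv : (v : V) ∉ D := Finset.disjoint_left.1 (hA.disjD C.1 C.2) v.2
      simp only [f, dif_neg hv]
      have e : Classical.choose (hch v hv) = C.1 := by
        by_contra hne
        exact Finset.disjoint_left.1 (hA.disj _ (Classical.choose_spec (hch v hv)).1 _ C.2 hne)
          (Classical.choose_spec (hch v hv)).2 v.2
      have : ∀ (C' : Finset V) (hC' : C' ∈ 𝒞) (hv' : (v : V) ∈ C') (_ : C' = C.1),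
          (g ⟨C', hC'⟩).1 (some ⟨v, hv'⟩) = (g C).1 (some v) := by
        rintro C' hC' hv' rfl
        rfl
      exact this _ _ _ e
    have hrestr : ∀ C : {C // C ∈ 𝒞}, restr f c C.1 = (g C).1 := by
      intro C
      funext p
      cases p with
      | none => exact (g C).2.2.symm
      | some v => exact hfC C v
    have hgood : Good A f := by
      rw [good_iff_restr hA hD hfD]
      intro C hC
      rw [hrestr ⟨C, hC⟩]
      exact (g ⟨C, hC⟩).2.1
    refine ⟨⟨f, hgood, hfD⟩, ?_⟩
    funext C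
    exact Subtype.ext (hrestr C)

lemma mono_eq_sum (A : Finset V → Prop) {D : Finset V} (hD : D.Nonempty) (N : ℕ) :
    mono A D N = ∑ c : Fin N, Nat.card {f : V → Fin N // Good A f ∧ ∀ v ∈ D, f v = c} := by
  classical
  obtain ⟨d, hd⟩ := hD
  unfold mono
  rw [← Nat.card_sigma]
  refine Nat.card_congr
    { toFun := fun f => ⟨f.1 d, f.1, f.2.1, fun v hv => f.2.2 v hv d hd⟩
      invFun := fun p => ⟨p.2.1, p.2.2.1, fun u hu v hv => by rw [p.2.2.2 u hu, p.2.2.2 v hv]⟩
      left_inv := fun f => rfl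
      right_inv := ?_ }
  rintro ⟨c, f, hf, hf'⟩
  obtain rfl : f d = c := hf' d hd
  rfl

lemma mono_product {A : Finset V → Prop} {D : Finset V} {𝒞 : Finset (Finset V)}
    (hA : Splits A D 𝒞) (hD : D.Nonempty) (N : ℕ) :
    N ^ 𝒞.card * mono A D N = N * ∏ C ∈ 𝒞, cnt (piece A D C) N := by
  rw [mono_eq_sum A hD, Finset.mul_sum]
  have h : ∀ c : Fin N, N ^ 𝒞.card * Nat.card {f : V → Fin N // Good A f ∧ ∀ v ∈ D, f v = c}
      = ∏ C ∈ 𝒞, cnt (piece A D C) N := by
    intro c
    rw [card_colour_eq hA hD c, ← Finset.prod_const, ← Finset.prod_mul_distrib]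
    exact Finset.prod_congr rfl fun C _ => mul_fixcnt _ _ c
  rw [Finset.sum_congr rfl fun c _ => h c]
  simp

/-- **product formula** -/
theorem monoPoly_product {A : Finset V → Prop} {D : Finset V} {𝒞 : Finset (Finset V)}
    (hA : Splits A D 𝒞) (hD : D.Nonempty) :
    (X : ℝ[X]) ^ 𝒞.card * monoPoly A D = X * ∏ C ∈ 𝒞, poly (piece A D C) :=
  eq_of_eval_nat fun N => by
    rw [eval_mul, eval_pow, eval_X, monoPoly_eval_nat A hD, eval_mul, eval_X, eval_prod]
    have h := mono_product hA hD N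
    have h' : ((N ^ 𝒞.card * mono A D N : ℕ) : ℝ) = ((N * ∏ C ∈ 𝒞, cnt (piece A D C) N : ℕ) : ℝ) := by
      rw [h]
    push_cast at h'
    rw [h']
    congr 1
    exact Finset.prod_congr rfl fun C _ => (poly_eval_nat _ N).symm

lemma card_option_coe (C : Finset V) : Fintype.card (Option {v // v ∈ C}) = C.card + 1 := by
  rw [Fintype.card_option, Fintype.card_coe]

lemma sum_card_splits {A : Finset V → Prop} {D : Finset V} {𝒞 : Finset (Finset V)}
    (hA : Splits A D 𝒞) : ∑ C ∈ 𝒞, C.card + D.card = Fintype.card V := by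
  classical
  have h1 : (𝒞.biUnion id) ∪ D = univ := by
    ext v
    simp only [mem_union, mem_biUnion, id, mem_univ, iff_true]
    by_cases hv : v ∈ D
    · exact Or.inr hv
    · obtain ⟨C, hC, hvC⟩ := hA.cover v hv
      exact Or.inl ⟨C, hC, hvC⟩
  have h2 : Disjoint (𝒞.biUnion id) D := by
    rw [Finset.disjoint_biUnion_left]
    exact fun C hC => hA.disjD C hC
  rw [← Finset.card_univ, ← h1, Finset.card_union_of_disjoint h2, Finset.card_biUnion]
  · rfl
  · intro C hC C' hC' hne
    exact hA.disj C hC C' hC' hne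

/-- the sign-normalised product formula -/
theorem FM_product {A : Finset V → Prop} {D : Finset V} {𝒞 : Finset (Finset V)}
    (hA : Splits A D 𝒞) (hD : D.Nonempty) (x : ℝ) :
    x ^ 𝒞.card * FM A D x = (-1) ^ (𝒞.card + D.card) * x * ∏ C ∈ 𝒞, FF (piece A D C) x := by
  have h := congrArg (eval x) (monoPoly_product hA hD)
  rw [eval_mul, eval_pow, eval_X, eval_mul, eval_X, eval_prod] at h
  unfold FM FF
  rw [Finset.prod_mul_distrib, Finset.prod_pow_eq_pow_sum]
  simp only [card_option_coe]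
  rw [Finset.sum_add_distrib, Finset.sum_const, smul_eq_mul, mul_one]
  have hc := sum_card_splits hA
  have e : (-1 : ℝ) ^ Fintype.card V
      = (-1) ^ (𝒞.card + D.card) * (-1) ^ (∑ C ∈ 𝒞, C.card + 𝒞.card) := by
    rw [← pow_add, ← hc]
    have : 𝒞.card + D.card + (∑ C ∈ 𝒞, C.card + 𝒞.card) = ∑ C ∈ 𝒞, C.card + D.card + 2 * 𝒞.card := by
      ring
    rw [this, pow_add _ _ (2 * _), pow_mul]
    simp
  rw [e]
  linear_combination (-1 : ℝ) ^ (𝒞.card + D.card) * (-1) ^ (∑ C ∈ 𝒞, C.card + 𝒞.card) * h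

end Pool.Agent.Chrom
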