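import Pool.Agent.Lib_helper88.Chrom.Basic

/-!
# The edge-subset expansion is the colouring polynomial of the independence complex
-/

open Finset Polynomial

namespace Pool.Agent.Chrom

variable {V : Type*} [Fintype V] [DecidableEq V]

set_option linter.unusedSectionVars false

/-- independent sets as allowed blocks -/
def Indep (G : SimpleGraph V) (S : Finset V) : Prop := ∀ u ∈ S, ∀ v ∈ S, ¬ G.Adj u v

lemma good_indep_iff (G : SimpleGraph V) {κ : Type*} [DecidableEq κ] (f : V → κ) :
    Good (Indep G) f ↔ ∀ u v, G.Adj u v → f u ≠ f v := by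
  constructor
  · intro h u v huv hf
    exact h u u (by simp) v (by simp [hf]) huv
  · intro h w u hu v hv huv
    rw [mem_cls] at hu hv
    exact h u v huv (hu.trans hv.symm)

/-- maps constant on the components of the graph with edge set `A` -/
lemma card_const (A : Set (Sym2 V)) (N : ℕ) :
    Nat.card {f : V → Fin N // ∀ u v, s(u, v) ∈ A → f u = f v}
      = N ^ Nat.card (SimpleGraph.fromEdgeSet A).ConnectedComponent := by
  classical
  set H := SimpleGraph.fromEdgeSet A
  have e : {f : V → Fin N // ∀ u v, s(u, v) ∈ A → f u = f v} ≃ (H.ConnectedComponent → Fin N) :=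
    { toFun := fun f => SimpleGraph.ConnectedComponent.lift f.1 (by
        intro v w p _
        induction p with
        | nil => rfl
        | cons h p ih =>
          rename_i h2
          rw [← ih (by exact (SimpleGraph.Walk.cons_isPath_iff _ _).1 h2 |>.1)]
          exact f.2 _ _ ((SimpleGraph.fromEdgeSet_adj A).1 h).1)
      invFun := fun g => ⟨fun v => g (H.connectedComponentMk v), by
        intro u v huv
        by_cases huv' : u = v
        · rw [huv']
        · have : H.Adj u v := (SimpleGraph.fromEdgeSet_adj A).2 ⟨huv, huv'⟩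
          exact congrArg g (SimpleGraph.ConnectedComponent.sound this.reachable)⟩
      left_inv := by
        intro f; ext v; rfl
      right_inv := by
        intro g; funext c
        induction c using SimpleGraph.ConnectedComponent.ind with
        | h v => rfl }
  rw [Nat.card_congr e]
  have : Fintype H.ConnectedComponent := Fintype.ofFinite _
  rw [Nat.card_eq_fintype_card, Fintype.card_fun, Fintype.card_fin, Nat.card_eq_fintype_card]

/-- the edge-subset expansion -/
theorem edge_expansion (G : SimpleGraph V) [DecidableRel G.Adj] (x : ℝ) :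
    (∑ A ∈ G.edgeFinset.powerset, (-1 : ℝ) ^ A.card *
      x ^ Nat.card (SimpleGraph.fromEdgeSet (A : Set (Sym2 V))).ConnectedComponent)
      = (poly (Indep G)).eval x := by
  classical
  set Q : ℝ[X] := ∑ A ∈ G.edgeFinset.powerset, C ((-1 : ℝ) ^ A.card) *
      X ^ Nat.card (SimpleGraph.fromEdgeSet (A : Set (Sym2 V))).ConnectedComponent with hQ
  have h1 : Q.eval x = ∑ A ∈ G.edgeFinset.powerset, (-1 : ℝ) ^ A.card *
      x ^ Nat.card (SimpleGraph.fromEdgeSet (A : Set (Sym2 V))).ConnectedComponent := by
    rw [hQ, eval_finsetSum]
    simp only [eval_mul, eval_C, eval_pow, eval_X]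
  rw [← h1]
  congr 1
  refine eq_of_eval_nat fun N => ?_
  rw [poly_eval_nat, hQ, eval_finsetSum]
  simp only [eval_mul, eval_C, eval_pow, eval_X]
  -- monochromatic edges
  let M : (V → Fin N) → Finset (Sym2 V) := fun f =>
    G.edgeFinset.filter fun e => ∀ u v, s(u, v) = e → f u = f v
  have h2 : ∀ A ∈ G.edgeFinset.powerset,
      (N : ℝ) ^ Nat.card (SimpleGraph.fromEdgeSet (A : Set (Sym2 V))).ConnectedComponent
        = ∑ f : V → Fin N, if A ⊆ M f then (1 : ℝ) else 0 := by
    intro A hA
    rw [mem_powerset] at hA
    have := card_const (A : Set (Sym2 V)) N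
    rw [← Nat.cast_pow, ← this, Nat.card_eq_fintype_card, Fintype.card_subtype, ← Finset.sum_boole]
    refine Finset.sum_congr rfl fun f _ => ?_
    congr 1
    rw [eq_iff_iff]
    constructor
    · intro h e he
      rw [mem_filter]
      refine ⟨hA he, ?_⟩
      rintro u v rfl
      exact h u v he
    · intro h u v huv
      have := h huv
      rw [mem_filter] at this
      exact this.2 u v rfl
  rw [Finset.sum_congr rfl fun A hA => by rw [h2 A hA]]
  simp only [Finset.mul_sum]
  rw [Finset.sum_comm]
  have h3 : ∀ f : V → Fin N, (∑ A ∈ G.edgeFinset.powerset,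
      (-1 : ℝ) ^ A.card * (if A ⊆ M f then (1 : ℝ) else 0)) = if Good (Indep G) f then 1 else 0 := by
    intro f
    have hsub : (M f).powerset ⊆ G.edgeFinset.powerset :=
      powerset_mono.2 (filter_subset _ _)
    have : (∑ A ∈ G.edgeFinset.powerset,
        (-1 : ℝ) ^ A.card * (if A ⊆ M f then (1 : ℝ) else 0))
        = ∑ A ∈ (M f).powerset, (-1 : ℝ) ^ A.card := by
      rw [← Finset.sum_subset hsub]
      · refine Finset.sum_congr rfl fun A hA => ?_
        rw [mem_powerset] at hA
        simp [hA]
      · intro A _ hA
        rw [mem_powerset] at hA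
        simp [hA]
    rw [this]
    have hz := Finset.sum_powerset_neg_one_pow_card (x := M f)
    have hz' : (∑ A ∈ (M f).powerset, (-1 : ℝ) ^ A.card) = if M f = ∅ then 1 else 0 := by
      have := congrArg (fun z : ℤ => (z : ℝ)) hz
      push_cast at this
      exact this
    rw [hz']
    congr 1
    rw [eq_iff_iff, good_indep_iff]
    constructor
    · intro h u v huv hf
      have : s(u, v) ∈ M f := by
        rw [mem_filter, SimpleGraph.mem_edgeFinset]
        refine ⟨huv, ?_⟩
        intro u' v' h'
        rw [Sym2.eq_iff] at h'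
        rcases h' with ⟨rfl, rfl⟩ | ⟨rfl, rfl⟩
        · exact hf
        · exact hf.symm
      rw [h] at this
      simp at this
    · intro h
      rw [eq_empty_iff_forall_notMem]
      intro e he
      induction e using Sym2.ind with
      | _ u v =>
        rw [mem_filter, SimpleGraph.mem_edgeFinset] at he
        exact h u v he.1 (he.2 u v rfl)
  simp only [h3]
  rw [Finset.sum_boole]
  unfold cnt
  rw [Nat.card_eq_fintype_card, Fintype.card_subtype]

end Pool.Agent.Chrom
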