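import Pool.Agent.Lib_helper88.Chrom.Comps
import Pool.Agent.Lib_helper88.Chrom.Product

/-!
# Components under quotient maps

`kk_map`: if `φ : V → V'` is onto with connected fibres (outside `S`) then `k(G - S) = k(G' - S')`.
`mergeG G a b` is the graph `G / ab` on `V \ {b}`; `pieceG G D C` is the graph `G[C ∪ D] / D` on
`Option C`.
-/

open Finset

namespace Pool.Agent.Chrom

variable {V V' : Type*} [Fintype V] [DecidableEq V] [Fintype V'] [DecidableEq V']

set_option linter.unusedSectionVars false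

lemma reachable_map {G : SimpleGraph V} {G' : SimpleGraph V'} {S : Finset V} {S' : Finset V'}
    {φ : V → V'} (h1 : ∀ u v, (del G S).Adj u v → (del G' S').Reachable (φ u) (φ v)) {u v : V}
    (h : (del G S).Reachable u v) : (del G' S').Reachable (φ u) (φ v) := by
  obtain ⟨p⟩ := h
  induction p with
  | nil => exact SimpleGraph.Reachable.refl _
  | cons h p ih => exact (h1 _ _ h).trans ih

section

variable {G : SimpleGraph V} {G' : SimpleGraph V'} {S : Finset V} {S' : Finset V'} {φ : V → V'}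

lemma image_comp
    (h1 : ∀ u v, (del G S).Adj u v → (del G' S').Reachable (φ u) (φ v))
    (h2 : ∀ u v, φ v ∉ S' → φ u = φ v → (del G S).Reachable u v)
    (h3 : ∀ x y, (del G' S').Adj x y → ∃ u v, φ u = x ∧ φ v = y ∧ (del G S).Reachable u v)
    {v : V} (hv : φ v ∉ S') : (comp G S v).image φ = comp G' S' (φ v) := by
  ext y
  rw [mem_image, mem_comp]
  constructor
  · rintro ⟨w, hw, rfl⟩
    exact reachable_map h1 (mem_comp.1 hw)
  · rintro ⟨p⟩
    have key : ∀ x y (_ : (del G' S').Walk x y) (v : V), φ v = x → φ v ∉ S' →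
        ∃ w, (del G S).Reachable v w ∧ φ w = y := by
      intro x y p
      induction p with
      | nil => intro v hv _; exact ⟨v, SimpleGraph.Reachable.refl _, hv⟩
      | @cons x z y h p ih =>
        intro v hv hv'
        obtain ⟨u, w, hu, hw, huw⟩ := h3 _ _ h
        have hvu : (del G S).Reachable v u := h2 v u (by rw [hu, ← hv]; exact hv') (by rw [hv, hu])
        have hwS : φ w ∉ S' := by rw [hw]; exact h.2.2
        obtain ⟨w', h1', h2'⟩ := ih w hw hwS
        exact ⟨w', (hvu.trans huw).trans h1', h2'⟩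
    obtain ⟨w, h1', h2'⟩ := key _ _ p v rfl hv
    exact ⟨w, mem_comp.2 h1', h2'⟩

/-- components under a quotient map -/
theorem kk_map (hφ : Function.Surjective φ) (hS : ∀ v, v ∈ S ↔ φ v ∈ S')
    (h1 : ∀ u v, (del G S).Adj u v → (del G' S').Reachable (φ u) (φ v))
    (h2 : ∀ u v, φ v ∉ S' → φ u = φ v → (del G S).Reachable u v)
    (h3 : ∀ x y, (del G' S').Adj x y → ∃ u v, φ u = x ∧ φ v = y ∧ (del G S).Reachable u v) :
    kk G S = kk G' S' := by
  unfold kk
  refine Finset.card_bij (fun C _ => C.image φ) ?_ ?_ ?_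
  · intro C hC
    obtain ⟨v, hv, rfl⟩ := mem_comps.1 hC
    have hv' : φ v ∉ S' := fun h => hv ((hS v).2 h)
    rw [image_comp h1 h2 h3 hv']
    exact comp_mem_comps hv'
  · intro C hC C' hC' h
    obtain ⟨v, hv, rfl⟩ := mem_comps.1 hC
    obtain ⟨v', hv', rfl⟩ := mem_comps.1 hC'
    have hw : φ v ∈ (comp G S v').image φ := by
      rw [← h]; exact mem_image_of_mem _ (self_mem_comp v)
    obtain ⟨w, hw, hw'⟩ := mem_image.1 hw
    have hr : (del G S).Reachable w v := h2 w v (fun hh => hv ((hS v).2 hh)) hw'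
    rw [← comp_eq_of_mem hw]
    exact (comp_eq_of_mem (mem_comp.2 hr))
  · intro C' hC'
    obtain ⟨y, hy, rfl⟩ := mem_comps.1 hC'
    obtain ⟨v, rfl⟩ := hφ y
    exact ⟨comp G S v, comp_mem_comps (fun h => hy ((hS v).1 h)), image_comp h1 h2 h3 hy⟩

end

/-! ### Contraction of an edge -/

/-- the map `V → V / (a = b)` -/
def mproj {a b : V} (hab : a ≠ b) (v : V) : {v : V // v ≠ b} :=
  if h : v = b then ⟨a, hab⟩ else ⟨v, h⟩

lemma mproj_b {a b : V} (hab : a ≠ b) : mproj hab b = ⟨a, hab⟩ := by simp [mproj]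

lemma mproj_of_ne {a b : V} (hab : a ≠ b) {v : V} (h : v ≠ b) : mproj hab v = ⟨v, h⟩ := by
  simp [mproj, h]

lemma mproj_surjective {a b : V} (hab : a ≠ b) : Function.Surjective (mproj hab) :=
  fun v => ⟨v.1, by rw [mproj_of_ne hab v.2]⟩

lemma mem_unmerge_iff {a b : V} (hab : a ≠ b) {S : Finset {v : V // v ≠ b}} {v : V} :
    v ∈ unmerge a b S ↔ mproj hab v ∈ S := by
  rw [mem_unmerge hab]
  unfold mproj
  split_ifs <;> rfl

lemma mproj_eq_iff {a b : V} (hab : a ≠ b) {u v : V} :
    mproj hab u = mproj hab v ↔ u = v ∨ (u = a ∧ v = b) ∨ (u = b ∧ v = a) := by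
  by_cases hu : u = b
  · subst hu
    rw [mproj_b]
    by_cases hv : v = u
    · subst hv; rw [mproj_b]; simp
    · rw [mproj_of_ne hab hv, Subtype.mk.injEq]
      constructor
      · rintro rfl; exact Or.inr (Or.inr ⟨rfl, rfl⟩)
      · rintro (h | ⟨_, h⟩ | ⟨_, h⟩)
        · exact absurd h.symm hv
        · exact absurd h hv
        · exact h.symm
  · rw [mproj_of_ne hab hu]
    by_cases hv : v = b
    · subst hv
      rw [mproj_b, Subtype.mk.injEq]
      constructor
      · rintro rfl; exact Or.inr (Or.inl ⟨rfl, rfl⟩)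
      · rintro (h | ⟨h, _⟩ | ⟨h, _⟩)
        · exact absurd h hu
        · exact h
        · exact absurd h hu
    · rw [mproj_of_ne hab hv, Subtype.mk.injEq]
      constructor
      · rintro rfl; exact Or.inl rfl
      · rintro (h | ⟨_, h⟩ | ⟨h, _⟩)
        · exact h
        · exact absurd h hv
        · exact absurd h hu

/-- the graph `G / ab` -/
def mergeG (G : SimpleGraph V) {a b : V} (hab : a ≠ b) : SimpleGraph {v : V // v ≠ b} where
  Adj x y := x ≠ y ∧ ∃ u v, mproj hab u = x ∧ mproj hab v = y ∧ G.Adj u v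
  symm := ⟨fun _ _ h => ⟨h.1.symm, by
    obtain ⟨u, v, hu, hv, h⟩ := h.2
    exact ⟨v, u, hv, hu, h.symm⟩⟩⟩
  loopless := ⟨fun _ h => h.1 rfl⟩

lemma mergeG_adj {G : SimpleGraph V} {a b : V} (hab : a ≠ b) {x y : {v : V // v ≠ b}} :
    (mergeG G hab).Adj x y ↔ x ≠ y ∧ ∃ u v, mproj hab u = x ∧ mproj hab v = y ∧ G.Adj u v := Iff.rfl

/-- if `a` and `b` are in `S`, or in the same component of `G - S`, then contraction of `ab` does
not change the number of components -/
theorem kk_merge {G : SimpleGraph V} {a b : V} (hab : a ≠ b) (S : Finset {v : V // v ≠ b})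
    (h : a ∈ unmerge a b S ∨ (del G (unmerge a b S)).Reachable a b) :
    kk (mergeG G hab) S = kk G (unmerge a b S) := by
  refine (kk_map (mproj_surjective hab) (fun v => mem_unmerge_iff hab) ?_ ?_ ?_).symm
  · intro u v huv
    by_cases he : mproj hab u = mproj hab v
    · rw [he]
    · refine SimpleGraph.Adj.reachable ⟨⟨he, u, v, rfl, rfl, huv.1⟩, ?_, ?_⟩
      · rw [← mem_unmerge_iff hab]; exact huv.2.1
      · rw [← mem_unmerge_iff hab]; exact huv.2.2
  · intro u v hv huv
    rw [← mem_unmerge_iff hab] at hv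
    rw [mproj_eq_iff hab] at huv
    rcases huv with rfl | ⟨rfl, rfl⟩ | ⟨rfl, rfl⟩
    · exact SimpleGraph.Reachable.refl _
    · rcases h with h | h
      · exact absurd ((mem_unmerge_iff hab).2 (by
          rw [mproj_b]; rw [mem_unmerge_iff hab, mproj_of_ne hab hab] at h; exact h)) hv
      · exact h
    · rcases h with h | h
      · exact absurd h hv
      · exact h.symm
  · rintro x y ⟨⟨hne, u, v, rfl, rfl, huv⟩, hu, hv⟩
    rw [← mem_unmerge_iff hab] at hu hv
    exact ⟨u, v, rfl, rfl, SimpleGraph.Adj.reachable ⟨huv, hu, hv⟩⟩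

end Pool.Agent.Chrom
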