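import Mathlib

/-!
# Colouring polynomials of families of allowed blocks

`V` is a finite type and `A : Finset V → Prop` says which sets of vertices may be colour classes.
`cnt A N` is the number of maps `f : V → Fin N` all of whose nonempty colour classes are allowed, and
`poly A` is the polynomial with `(poly A).eval N = cnt A N` for every natural number `N`.
-/

open Finset Polynomial

namespace Pool.Agent.Chrom

universe u

variable {V : Type*} [Fintype V] [DecidableEq V]

set_option linter.unusedSectionVars false

/-- the colour class of `v` -/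
def cls {κ : Type*} [DecidableEq κ] (f : V → κ) (v : V) : Finset V := univ.filter fun w => f w = f v

@[simp] lemma mem_cls {κ : Type*} [DecidableEq κ] (f : V → κ) (v w : V) :
    w ∈ cls f v ↔ f w = f v := by simp [cls]

/-- all colour classes of `f` are allowed -/
def Good (A : Finset V → Prop) {κ : Type*} [DecidableEq κ] (f : V → κ) : Prop := ∀ v, A (cls f v)

/-- the number of good colourings with `N` colours -/
noncomputable def cnt (A : Finset V → Prop) (N : ℕ) : ℕ := Nat.card {f : V → Fin N // Good A f}

/-- the number of good surjective colourings with `k` colours -/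
noncomputable def surj (A : Finset V → Prop) (k : ℕ) : ℕ :=
  Nat.card {f : V → Fin k // Function.Surjective f ∧ Good A f}

/-- the colouring polynomial -/
noncomputable def poly (A : Finset V → Prop) : ℝ[X] :=
  ∑ k ∈ range (Fintype.card V + 1), C ((surj A k : ℝ) / (k.factorial : ℝ)) * descPochhammer ℝ k

lemma cls_comp {κ κ' : Type*} [DecidableEq κ] [DecidableEq κ'] (f : V → κ) {g : κ → κ'}
    (hg : Function.Injective g) (v : V) : cls (g ∘ f) v = cls f v := by
  ext w; simp [hg.eq_iff]

lemma good_comp {A : Finset V → Prop} {κ κ' : Type*} [DecidableEq κ] [DecidableEq κ'] (f : V → κ)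
    {g : κ → κ'} (hg : Function.Injective g) : Good A (g ∘ f) ↔ Good A f := by
  unfold Good; simp only [cls_comp f hg]

lemma surj_eq_zero {A : Finset V → Prop} {k : ℕ} (hk : Fintype.card V < k) : surj A k = 0 := by
  unfold surj
  rw [Nat.card_eq_zero]
  left
  constructor
  rintro ⟨f, hf, -⟩
  have := Fintype.card_le_of_surjective f hf
  rw [Fintype.card_fin] at this
  omega

lemma mem_of_image_eq {N : ℕ} {f : V → Fin N} {I : Finset (Fin N)} (h : univ.image f = I) (v : V) :
    f v ∈ I := by
  rw [← h]; exact mem_image_of_mem _ (mem_univ v)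

/-- the number of good colourings with image `I` -/
lemma card_image_eq (A : Finset V → Prop) (N : ℕ) (I : Finset (Fin N)) :
    Nat.card {f : V → Fin N // Good A f ∧ univ.image f = I} = surj A I.card := by
  unfold surj
  let e : Fin I.card ≃ I := (I.orderIsoOfFin rfl).toEquiv
  refine (Nat.card_congr ?_).symm
  refine
    { toFun := fun f => ⟨fun v => (e (f.1 v) : Fin N), ?_, ?_⟩
      invFun := fun f => ⟨fun v => e.symm ⟨f.1 v, mem_of_image_eq f.2.2 v⟩, ?_, ?_⟩
      left_inv := ?_
      right_inv := ?_ }
  · have : (fun v => (e (f.1 v) : Fin N)) = (fun i => (e i : Fin N)) ∘ f.1 := rfl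
    rw [this, good_comp f.1 (fun i j h => e.injective (Subtype.ext h))]
    exact f.2.2
  · ext i
    simp only [mem_image, mem_univ, true_and]
    constructor
    · rintro ⟨v, rfl⟩; exact (e (f.1 v)).2
    · intro hi
      obtain ⟨v, hv⟩ := f.2.1 (e.symm ⟨i, hi⟩)
      exact ⟨v, by rw [hv]; simp⟩
  · intro i
    have hi : (e i : Fin N) ∈ univ.image f.1 := by rw [f.2.2]; exact (e i).2
    obtain ⟨v, -, hv⟩ := mem_image.1 hi
    refine ⟨v, ?_⟩
    rw [Equiv.symm_apply_eq]
    exact Subtype.ext hv
  · have h : Function.Injective (fun i => (e i : Fin N)) := fun i j h => e.injective (Subtype.ext h)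
    rw [← good_comp _ h]
    have : (fun i => (e i : Fin N)) ∘ (fun v => e.symm ⟨f.1 v, mem_of_image_eq f.2.2 v⟩) = f.1 := by
      funext v; simp
    rw [this]
    exact f.2.1
  · intro f; ext v; simp
  · intro f; ext v; simp

lemma cnt_eq_sum (A : Finset V → Prop) (N : ℕ) :
    cnt A N = ∑ k ∈ range (N + 1), N.choose k * surj A k := by
  classical
  have h1 : cnt A N = ∑ I ∈ (univ : Finset (Fin N)).powerset, surj A I.card := by
    unfold cnt
    have e : {f : V → Fin N // Good A f} ≃
        Σ I : Finset (Fin N), {f : V → Fin N // Good A f ∧ univ.image f = I} :=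
      { toFun := fun f => ⟨univ.image f.1, f.1, f.2, rfl⟩
        invFun := fun p => ⟨p.2.1, p.2.2.1⟩
        left_inv := fun f => rfl
        right_inv := by
          rintro ⟨I, f, hf, rfl⟩
          rfl }
    rw [Nat.card_congr e, Nat.card_sigma]
    simp only [card_image_eq, powerset_univ]
  rw [h1, sum_powerset_apply_card (fun k => surj A k)]
  simp [Finset.card_univ, Fintype.card_fin]

lemma poly_eval_nat (A : Finset V → Prop) (N : ℕ) : (poly A).eval (N : ℝ) = cnt A N := by
  unfold poly
  rw [eval_finsetSum, cnt_eq_sum]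
  push_cast
  have h : ∀ k, eval (N : ℝ) (C ((surj A k : ℝ) / (k.factorial : ℝ)) * descPochhammer ℝ k)
      = (N.choose k : ℝ) * surj A k := by
    intro k
    rw [eval_mul, eval_C, descPochhammer_eval_eq_descFactorial, Nat.descFactorial_eq_factorial_mul_choose]
    push_cast
    have : (k.factorial : ℝ) ≠ 0 := by exact_mod_cast k.factorial_ne_zero
    field_simp
  simp only [h]
  -- both sums agree with the sum over a common range
  set M := max (Fintype.card V + 1) (N + 1) with hM
  have a1 : ∑ k ∈ range (Fintype.card V + 1), (N.choose k : ℝ) * surj A k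
      = ∑ k ∈ range M, (N.choose k : ℝ) * surj A k := by
    refine sum_subset (range_subset_range.2 (le_max_left _ _)) fun k _ hk => ?_
    rw [mem_range, not_lt] at hk
    rw [surj_eq_zero (by omega)]
    simp
  have a2 : ∑ k ∈ range (N + 1), (N.choose k : ℝ) * surj A k
      = ∑ k ∈ range M, (N.choose k : ℝ) * surj A k := by
    refine sum_subset (range_subset_range.2 (le_max_right _ _)) fun k _ hk => ?_
    rw [mem_range, not_lt] at hk
    rw [Nat.choose_eq_zero_of_lt (by omega)]
    simp
  rw [a1, a2]

/-- two polynomials which agree at all natural numbers are equal -/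
lemma eq_of_eval_nat {p q : ℝ[X]} (h : ∀ N : ℕ, p.eval (N : ℝ) = q.eval (N : ℝ)) : p = q := by
  refine Polynomial.eq_of_infinite_eval_eq p q (Set.Infinite.mono (s := Set.range (fun N : ℕ => (N : ℝ)))
    ?_ (Set.infinite_range_of_injective Nat.cast_injective))
  rintro _ ⟨N, rfl⟩
  exact h N

lemma poly_eq {V' : Type*} [Fintype V'] [DecidableEq V'] {A : Finset V → Prop}
    {B : Finset V' → Prop} (h : ∀ N, cnt A N = cnt B N) : poly A = poly B :=
  eq_of_eval_nat fun N => by rw [poly_eval_nat, poly_eval_nat, h N]

/-- colourings may use any finite set of colours -/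
lemma card_good (A : Finset V → Prop) (κ : Type*) [Fintype κ] [DecidableEq κ] :
    Nat.card {f : V → κ // Good A f} = cnt A (Fintype.card κ) := by
  unfold cnt
  let e := Fintype.equivFin κ
  refine Nat.card_congr ((Equiv.arrowCongr (Equiv.refl V) e).subtypeEquiv fun f => ?_)
  exact (good_comp f e.injective).symm

/-- invariance under bijections of the vertex set -/
lemma cnt_equiv {V' : Type*} [Fintype V'] [DecidableEq V'] (e : V ≃ V') (A : Finset V → Prop)
    (B : Finset V' → Prop) (h : ∀ S, A S ↔ B (S.map e.toEmbedding)) (N : ℕ) : cnt A N = cnt B N := by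
  unfold cnt
  refine Nat.card_congr ((Equiv.arrowCongr e (Equiv.refl (Fin N))).subtypeEquiv fun f => ?_)
  unfold Good
  have key : ∀ v, (cls f v).map e.toEmbedding = cls (Equiv.arrowCongr e (Equiv.refl (Fin N)) f) (e v) := by
    intro v; ext w
    simp only [mem_map_equiv, mem_cls, Equiv.arrowCongr_apply, Equiv.coe_refl, Function.comp_apply,
      id_eq, Equiv.symm_apply_apply]
  constructor
  · intro hf w
    have := hf (e.symm w)
    rw [h, key] at this
    simpa using this
  · intro hf v
    rw [h, key]
    exact hf (e v)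

lemma poly_equiv {V' : Type*} [Fintype V'] [DecidableEq V'] (e : V ≃ V') (A : Finset V → Prop)
    (B : Finset V' → Prop) (h : ∀ S, A S ↔ B (S.map e.toEmbedding)) : poly A = poly B :=
  poly_eq (cnt_equiv e A B h)

lemma cnt_congr {A B : Finset V → Prop} (h : ∀ S, S.Nonempty → (A S ↔ B S)) (N : ℕ) :
    cnt A N = cnt B N := by
  unfold cnt
  refine Nat.card_congr (Equiv.subtypeEquivRight fun f => ?_)
  refine forall_congr' fun v => h _ ⟨v, by simp⟩

lemma poly_congr {A B : Finset V → Prop} (h : ∀ S, S.Nonempty → (A S ↔ B S)) : poly A = poly B :=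
  poly_eq (cnt_congr h)

end Pool.Agent.Chrom
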