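import Mathlib

/-!
# Components of `G - S`

All sets are `Finset V`.  `comps G S` is the set of the components of `G - S`, `kk G S` their number
and `cc G S = kk G S - |S|`.
-/

open Finset

namespace Pool.Agent.Chrom

variable {V : Type*} [Fintype V] [DecidableEq V]

set_option linter.unusedSectionVars false

/-- `G - S` as a graph on the same vertex set (the vertices of `S` become isolated) -/
def del (G : SimpleGraph V) (S : Finset V) : SimpleGraph V where
  Adj u v := G.Adj u v ∧ u ∉ S ∧ v ∉ S
  symm := ⟨fun _ _ h => ⟨h.1.symm, h.2.2, h.2.1⟩⟩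
  loopless := ⟨fun _ h => h.1.ne rfl⟩

@[simp] lemma del_adj {G : SimpleGraph V} {S : Finset V} {u v : V} :
    (del G S).Adj u v ↔ G.Adj u v ∧ u ∉ S ∧ v ∉ S := Iff.rfl

open Classical in
/-- the component of `v` in `G - S` (for `v ∉ S`) -/
noncomputable def comp (G : SimpleGraph V) (S : Finset V) (v : V) : Finset V :=
  univ.filter fun w => (del G S).Reachable v w

/-- the components of `G - S` -/
noncomputable def comps (G : SimpleGraph V) (S : Finset V) : Finset (Finset V) :=
  (univ \ S).image (comp G S)

/-- the number of components of `G - S` -/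
noncomputable def kk (G : SimpleGraph V) (S : Finset V) : ℕ := (comps G S).card

/-- `c(S) = k(G - S) - |S|` -/
noncomputable def cc (G : SimpleGraph V) (S : Finset V) : ℤ := (kk G S : ℤ) - S.card

variable {G : SimpleGraph V} {S T C D : Finset V} {u v w : V}

@[simp] lemma mem_comp : w ∈ comp G S v ↔ (del G S).Reachable v w := by
  classical
  simp [comp]

lemma mem_comps : C ∈ comps G S ↔ ∃ v, v ∉ S ∧ comp G S v = C := by
  simp [comps]

lemma self_mem_comp (v : V) : v ∈ comp G S v := by
  rw [mem_comp]

lemma comp_mem_comps (hv : v ∉ S) : comp G S v ∈ comps G S := mem_comps.2 ⟨v, hv, rfl⟩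

lemma comp_eq_of_mem (h : w ∈ comp G S v) : comp G S w = comp G S v := by
  ext x
  rw [mem_comp] at h ⊢
  rw [mem_comp]
  exact ⟨fun hx => h.trans hx, fun hx => h.symm.trans hx⟩

/-- the vertices reachable from `v ∉ S` in `G - S` avoid `S` -/
lemma not_mem_of_reachable (h : (del G S).Reachable v w) (hv : v ∉ S) : w ∉ S := by
  obtain ⟨p⟩ := h
  induction p with
  | nil => exact hv
  | cons h p ih => exact ih h.2.2

lemma comp_disjoint (hv : v ∉ S) : Disjoint (comp G S v) S := by
  rw [Finset.disjoint_left]
  intro w hw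
  exact not_mem_of_reachable (mem_comp.1 hw) hv

lemma comps_disjoint_S (hC : C ∈ comps G S) : Disjoint C S := by
  obtain ⟨v, hv, rfl⟩ := mem_comps.1 hC
  exact comp_disjoint hv

lemma comps_nonempty (hC : C ∈ comps G S) : C.Nonempty := by
  obtain ⟨v, -, rfl⟩ := mem_comps.1 hC
  exact ⟨v, self_mem_comp v⟩

lemma comp_eq_of_mem_comps (hC : C ∈ comps G S) (hv : v ∈ C) : comp G S v = C := by
  obtain ⟨w, -, rfl⟩ := mem_comps.1 hC
  exact comp_eq_of_mem hv

/-- different components are disjoint -/
lemma comps_disjoint (hC : C ∈ comps G S) (hD : D ∈ comps G S) (h : C ≠ D) : Disjoint C D := by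
  rw [Finset.disjoint_left]
  intro v hv hv'
  exact h ((comp_eq_of_mem_comps hC hv).symm.trans (comp_eq_of_mem_comps hD hv'))

/-- the components cover `V \ S` -/
lemma exists_comps (hv : v ∉ S) : ∃ C ∈ comps G S, v ∈ C :=
  ⟨comp G S v, comp_mem_comps hv, self_mem_comp v⟩

/-- a component is closed under adjacency outside `S` -/
lemma comps_closed (hC : C ∈ comps G S) (hu : u ∈ C) (huv : G.Adj u v) (hv : v ∉ S) : v ∈ C := by
  have hu' : u ∉ S := Finset.disjoint_left.1 (comps_disjoint_S hC) hu
  rw [← comp_eq_of_mem_comps hC hu, mem_comp]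
  exact SimpleGraph.Adj.reachable ⟨huv, hu', hv⟩

end Pool.Agent.Chrom
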