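import Pool.Agent.Lib_helper88.Chrom.Basic

/-!
# Monochromatic sets, deletion of a block, merging two vertices

* `avoid A T` : the family `A` without the supersets of `T`;
* `mono A D N` : the number of good colourings with `D` monochromatic, `monoPoly A D` its polynomial;
* `cnt_eq_add_mono : cnt A N = cnt (avoid A D) N + mono A D N`;
* `merge a b A` : the family on `V \ {b}` obtained by identifying `a` and `b`, with
  `poly A = poly (avoid A {a, b}) + poly (merge a b A)`.
-/

open Finset Polynomial

namespace Pool.Agent.Chrom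

variable {V : Type*} [Fintype V] [DecidableEq V]

set_option linter.unusedSectionVars false

/-- remove the supersets of `T` -/
def avoid (A : Finset V → Prop) (T : Finset V) : Finset V → Prop := fun S => A S ∧ ¬ T ⊆ S

/-- `T` is monochromatic under `f` -/
def IsMono {κ : Type*} (f : V → κ) (T : Finset V) : Prop := ∀ u ∈ T, ∀ v ∈ T, f u = f v

/-- the number of good colourings with `D` monochromatic -/
noncomputable def mono (A : Finset V → Prop) (D : Finset V) (N : ℕ) : ℕ :=
  Nat.card {f : V → Fin N // Good A f ∧ IsMono f D}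

lemma isMono_iff {κ : Type*} [DecidableEq κ] (f : V → κ) {T : Finset V} (hT : T.Nonempty) :
    IsMono f T ↔ ∃ v, T ⊆ cls f v := by
  constructor
  · intro h
    obtain ⟨v, hv⟩ := hT
    exact ⟨v, fun w hw => by rw [mem_cls]; exact h w hw v hv⟩
  · rintro ⟨v, hv⟩ u hu w hw
    have h1 := hv hu
    have h2 := hv hw
    rw [mem_cls] at h1 h2
    rw [h1, h2]

lemma good_avoid {κ : Type*} [DecidableEq κ] (A : Finset V → Prop) {T : Finset V} (hT : T.Nonempty)
    (f : V → κ) : Good (avoid A T) f ↔ Good A f ∧ ¬ IsMono f T := by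
  rw [isMono_iff f hT]
  unfold Good avoid
  push Not
  exact forall_and

lemma mono_eq_card (A : Finset V → Prop) (D : Finset V) (N : ℕ) : mono A D N
    = Nat.card {f : {f : V → Fin N // Good A f} // IsMono f.1 D} := by
  unfold mono
  exact Nat.card_congr (Equiv.subtypeSubtypeEquivSubtypeInter _ _).symm

lemma cnt_eq_add_mono (A : Finset V → Prop) {D : Finset V} (hD : D.Nonempty) (N : ℕ) :
    cnt A N = cnt (avoid A D) N + mono A D N := by
  classical
  unfold cnt mono
  have h : ∀ f : V → Fin N, Good (avoid A D) f ↔ Good A f ∧ ¬ IsMono f D := good_avoid A hD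
  simp only [h, Nat.card_eq_fintype_card, Fintype.card_subtype]
  rw [← Finset.filter_filter, ← Finset.filter_filter, add_comm]
  exact (Finset.card_filter_add_card_filter_not (s := univ.filter fun f : V → Fin N => Good A f)
    (fun f => IsMono f D)).symm

lemma isMono_mono {κ : Type*} {f : V → κ} {D T : Finset V} (h : D ⊆ T) (hf : IsMono f T) :
    IsMono f D := fun u hu v hv => hf u (h hu) v (h hv)

/-- branching: `D ⊆ T`, either `T` is monochromatic or not -/
lemma mono_branch (A : Finset V → Prop) {D T : Finset V} (hD : D.Nonempty) (h : D ⊆ T) (N : ℕ) :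
    mono A D N = mono (avoid A T) D N + mono A T N := by
  classical
  unfold mono
  have h1 : ∀ f : V → Fin N, Good (avoid A T) f ↔ Good A f ∧ ¬ IsMono f T :=
    good_avoid A (hD.mono h)
  have h2 : ∀ f : V → Fin N, (Good (avoid A T) f ∧ IsMono f D)
      ↔ ((Good A f ∧ IsMono f D) ∧ ¬ IsMono f T) := by
    intro f; rw [h1]; tauto
  have h3 : ∀ f : V → Fin N, (Good A f ∧ IsMono f T)
      ↔ ((Good A f ∧ IsMono f D) ∧ IsMono f T) := by
    intro f
    constructor
    · rintro ⟨a, b⟩; exact ⟨⟨a, isMono_mono h b⟩, b⟩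
    · rintro ⟨⟨a, _⟩, b⟩; exact ⟨a, b⟩
  simp only [h2, h3, Nat.card_eq_fintype_card, Fintype.card_subtype]
  rw [← Finset.filter_filter (fun f : V → Fin N => Good A f ∧ IsMono f D),
    ← Finset.filter_filter (fun f : V → Fin N => Good A f ∧ IsMono f D), add_comm]
  exact (Finset.card_filter_add_card_filter_not
    (s := univ.filter fun f : V → Fin N => Good A f ∧ IsMono f D) (fun f => IsMono f T)).symm

/-- the polynomial of `mono` -/
noncomputable def monoPoly (A : Finset V → Prop) (D : Finset V) : ℝ[X] := poly A - poly (avoid A D)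

lemma monoPoly_eval_nat (A : Finset V → Prop) {D : Finset V} (hD : D.Nonempty) (N : ℕ) :
    (monoPoly A D).eval (N : ℝ) = mono A D N := by
  unfold monoPoly
  rw [eval_sub, poly_eval_nat, poly_eval_nat, cnt_eq_add_mono A hD N]
  push_cast
  ring

lemma poly_eq_add_mono (A : Finset V → Prop) (D : Finset V) :
    poly A = poly (avoid A D) + monoPoly A D := by
  unfold monoPoly; ring

lemma monoPoly_branch (A : Finset V → Prop) {D T : Finset V} (hD : D.Nonempty) (h : D ⊆ T) :
    monoPoly A D = monoPoly (avoid A T) D + monoPoly A T :=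
  eq_of_eval_nat fun N => by
    rw [eval_add, monoPoly_eval_nat A hD, monoPoly_eval_nat _ hD, monoPoly_eval_nat A (hD.mono h),
      mono_branch A hD h]
    push_cast
    ring

/-! ### Merging two vertices -/

/-- the preimage in `V` of a set of vertices of `V / (a = b)` -/
def unmerge (a b : V) (S : Finset {v : V // v ≠ b}) : Finset V :=
  if a ∈ S.map (Function.Embedding.subtype _) then insert b (S.map (Function.Embedding.subtype _))
  else S.map (Function.Embedding.subtype _)

lemma mem_unmerge {a b : V} {S : Finset {v : V // v ≠ b}} {v : V} (hab : a ≠ b) :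
    v ∈ unmerge a b S ↔ (if h : v = b then (⟨a, hab⟩ : {v : V // v ≠ b}) ∈ S else ⟨v, h⟩ ∈ S) := by
  unfold unmerge
  by_cases h : v = b
  · subst h
    rw [dif_pos rfl]
    split_ifs with h1
    · simp only [mem_insert, true_or, true_iff]
      obtain ⟨w, hw, hw'⟩ := mem_map.1 h1
      have : w = ⟨a, hab⟩ := Subtype.ext hw'
      rwa [← this]
    · constructor
      · intro h2
        obtain ⟨w, hw, hw'⟩ := mem_map.1 h2
        exact absurd hw' w.2
      · intro h2
        exact absurd (mem_map.2 ⟨_, h2, rfl⟩) h1
  · rw [dif_neg h]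
    have : v ∈ S.map (Function.Embedding.subtype _) ↔ (⟨v, h⟩ : {v : V // v ≠ b}) ∈ S := by
      rw [mem_map]
      constructor
      · rintro ⟨w, hw, hw'⟩
        have : w = ⟨v, h⟩ := Subtype.ext hw'
        rwa [← this]
      · intro h2; exact ⟨_, h2, rfl⟩
    split_ifs with h1
    · rw [mem_insert, this]
      simp [h]
    · exact this

/-- the family on `V / (a = b)` -/
def merge (a b : V) (A : Finset V → Prop) : Finset {v : V // v ≠ b} → Prop :=
  fun S => A (unmerge a b S)

lemma good_merge {κ : Type*} [DecidableEq κ] (A : Finset V → Prop) {a b : V} (hab : a ≠ b)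
    (f : V → κ) (hf : f a = f b) :
    Good (merge a b A) (fun v : {v : V // v ≠ b} => f v) ↔ Good A f := by
  have key : ∀ v : {v : V // v ≠ b}, unmerge a b (cls (fun v : {v : V // v ≠ b} => f v) v)
      = cls f v := by
    intro v
    ext w
    rw [mem_unmerge hab]
    split_ifs with h
    · subst h
      rw [mem_cls, mem_cls, hf]
    · rw [mem_cls, mem_cls]
  unfold Good merge
  simp only [key]
  constructor
  · intro h v
    by_cases hv : v = b
    · subst hv
      have := h ⟨a, hab⟩
      have e : cls f a = cls f v := by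
        ext w; rw [mem_cls, mem_cls, hf]
      rwa [← e]
    · exact h ⟨v, hv⟩
  · intro h v; exact h v

lemma mono_pair (A : Finset V → Prop) {a b : V} (hab : a ≠ b) (N : ℕ) :
    mono A {a, b} N = cnt (merge a b A) N := by
  classical
  unfold mono cnt
  have hm : ∀ f : V → Fin N, IsMono f {a, b} ↔ f a = f b := by
    intro f
    constructor
    · intro h; exact h a (by simp) b (by simp)
    · intro h u hu v hv
      simp only [mem_insert, mem_singleton] at hu hv
      rcases hu with rfl | rfl <;> rcases hv with rfl | rfl <;> simp [h]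
  simp only [hm]
  refine Nat.card_congr
    { toFun := fun f => ⟨fun v => f.1 v, (good_merge A hab f.1 f.2.2).2 f.2.1⟩
      invFun := fun g => ⟨fun v => if h : v = b then g.1 ⟨a, hab⟩ else g.1 ⟨v, h⟩, ?_⟩
      left_inv := ?_
      right_inv := ?_ }
  · have h1 : (fun v : V => if h : v = b then g.1 ⟨a, hab⟩ else g.1 ⟨v, h⟩) a
        = (fun v : V => if h : v = b then g.1 ⟨a, hab⟩ else g.1 ⟨v, h⟩) b := by
      simp [hab]
    refine ⟨?_, h1⟩
    rw [← good_merge A hab _ h1]
    have : (fun v : {v : V // v ≠ b} =>
        (fun v : V => if h : v = b then g.1 ⟨a, hab⟩ else g.1 ⟨v, h⟩) v) = g.1 := by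
      funext v
      simp [v.2]
    rw [this]
    exact g.2
  · rintro ⟨f, hf, hf'⟩
    ext v
    by_cases h : v = b
    · subst h; simp [hf']
    · simp [h]
  · rintro ⟨g, hg⟩
    ext v
    simp [v.2]

/-- deletion-contraction for families -/
theorem poly_eq_add_merge (A : Finset V → Prop) {a b : V} (hab : a ≠ b) :
    poly A = poly (avoid A {a, b}) + poly (merge a b A) :=
  eq_of_eval_nat fun N => by
    rw [eval_add, poly_eval_nat, poly_eval_nat, poly_eval_nat,
      cnt_eq_add_mono A (D := {a, b}) ⟨a, by simp⟩ N, mono_pair A hab]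
    push_cast
    ring

/-! ### The sign-normalised evaluation -/

/-- `(-1)^|V| * poly A x` -/
noncomputable def FF (A : Finset V → Prop) (x : ℝ) : ℝ :=
  (-1) ^ Fintype.card V * (poly A).eval x

/-- `(-1)^|V| * monoPoly A D x` -/
noncomputable def FM (A : Finset V → Prop) (D : Finset V) (x : ℝ) : ℝ :=
  (-1) ^ Fintype.card V * (monoPoly A D).eval x

lemma FF_eq_add_FM (A : Finset V → Prop) (D : Finset V) (x : ℝ) :
    FF A x = FF (avoid A D) x + FM A D x := by
  unfold FF FM
  rw [poly_eq_add_mono A D, eval_add]
  ring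

lemma FM_branch (A : Finset V → Prop) {D T : Finset V} (hD : D.Nonempty) (h : D ⊆ T) (x : ℝ) :
    FM A D x = FM (avoid A T) D x + FM A T x := by
  unfold FM
  rw [monoPoly_branch A hD h, eval_add]
  ring

lemma FF_equiv {V' : Type*} [Fintype V'] [DecidableEq V'] (e : V ≃ V') (A : Finset V → Prop)
    (B : Finset V' → Prop) (h : ∀ S, A S ↔ B (S.map e.toEmbedding)) (x : ℝ) : FF A x = FF B x := by
  unfold FF
  rw [poly_equiv e A B h, Fintype.card_congr e]

lemma FF_congr {A B : Finset V → Prop} (h : ∀ S, S.Nonempty → (A S ↔ B S)) (x : ℝ) :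
    FF A x = FF B x := by
  unfold FF
  rw [poly_congr h]

lemma card_ne (b : V) : Fintype.card {v : V // v ≠ b} + 1 = Fintype.card V := by
  have h := Fintype.card_subtype_compl (fun v : V => v = b)
  rw [Fintype.card_subtype_eq] at h
  have hpos : 0 < Fintype.card V := Fintype.card_pos_iff.2 ⟨b⟩
  have : Fintype.card {v : V // ¬ v = b} = Fintype.card {v : V // v ≠ b} := rfl
  omega

/-- deletion-contraction, sign-normalised: if `A` forbids `{a, b}` and `A'` is `A` together with
some sets containing `{a, b}`, then `FF A = FF A' + FF (A' / ab)` -/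
theorem FF_del_contract (A' : Finset V → Prop) {a b : V} (hab : a ≠ b) (x : ℝ) :
    FF (avoid A' {a, b}) x = FF A' x + FF (merge a b A') x := by
  unfold FF
  rw [poly_eq_add_merge A' hab, eval_add, ← card_ne b, pow_succ]
  ring

end Pool.Agent.Chrom
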